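import Mathlib

set_option autoImplicit false
open Matrix

namespace Pool.Agent.MP2725c9

/-- Majorization of two real vectors (`x ⪯ y`): equal sums, and every sum of `k` entries of `x`
is at most some sum of `k` entries of `y` (that is, the sum of the `k` largest entries of `x` is at
most the sum of the `k` largest entries of `y`). -/
def Majorized {κ : Type*} [Fintype κ] (x y : κ → ℝ) : Prop :=
  ∑ i, x i = ∑ i, y i ∧
    ∀ s : Finset κ, ∃ t : Finset κ, t.card = s.card ∧ ∑ i ∈ s, x i ≤ ∑ i ∈ t, y i

lemma abel_sum (a b : ℕ → ℝ) (N : ℕ) (ha : ∀ k, k < N → a (k + 1) ≤ a k)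
    (hb : ∀ k, k ≤ N → 0 ≤ ∑ j ∈ Finset.range (k + 1), b j) :
    a N * ∑ j ∈ Finset.range (N + 1), b j ≤ ∑ j ∈ Finset.range (N + 1), a j * b j := by
  induction N with
  | zero => simp
  | succ N ih =>
    have h1 := ih (fun k hk => ha k (by omega)) (fun k hk => hb k (by omega))
    rw [Finset.sum_range_succ _ (N + 1), Finset.sum_range_succ _ (N + 1)]
    have h2 := ha N (by omega)
    have h3 := hb N (by omega)
    nlinarith [mul_le_mul_of_nonneg_right h2 h3]

/-- The first `k` entries of a decreasing vector have the largest sum. -/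
lemma sum_le_first {N : ℕ} (g : Fin N → ℝ) (hg : Antitone g) (t : Finset (Fin N)) :
    ∑ i ∈ t, g i ≤ ∑ i ∈ Finset.univ.filter (fun i : Fin N => i.1 < t.card), g i := by
  classical
  set F := Finset.univ.filter (fun i : Fin N => i.1 < t.card) with hF
  have htN : t.card ≤ N := by simpa using t.card_le_univ
  have hFc : F.card = t.card := by
    rw [hF]
    have h := Fin.card_filter_val_lt (n := N) (m := t.card)
    rw [h]
    exact min_eq_right htN
  rcases Nat.eq_zero_or_pos t.card with h0 | hpos
  · have : t = ∅ := Finset.card_eq_zero.mp h0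
    subst this
    rw [Finset.sum_empty]
    have hFe : F = ∅ := Finset.card_eq_zero.mp (by rw [hFc, Finset.card_empty])
    rw [hFe, Finset.sum_empty]
  · set v := g ⟨t.card - 1, by omega⟩ with hv
    have h1 : ∑ i ∈ t \ F, g i ≤ (t \ F).card • v := by
      refine Finset.sum_le_card_nsmul _ _ _ fun i hi => ?_
      rw [Finset.mem_sdiff, hF, Finset.mem_filter] at hi
      refine hg ?_
      rw [Fin.le_def]
      have : ¬ i.1 < t.card := fun h => hi.2 ⟨Finset.mem_univ _, h⟩
      simp only
      omega
    have h2 : (F \ t).card • v ≤ ∑ i ∈ F \ t, g i := by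
      refine Finset.card_nsmul_le_sum _ _ _ fun i hi => ?_
      rw [Finset.mem_sdiff, hF, Finset.mem_filter] at hi
      refine hg ?_
      rw [Fin.le_def]
      have := hi.1.2
      simp only
      omega
    have h3 : (t \ F).card = (F \ t).card := by
      have e1 := Finset.card_sdiff_add_card_inter t F
      have e2 := Finset.card_sdiff_add_card_inter F t
      rw [Finset.inter_comm F t] at e2
      omega
    have h4 : ∑ i ∈ t, g i = ∑ i ∈ t ∩ F, g i + ∑ i ∈ t \ F, g i := by
      rw [Finset.sum_inter_add_sum_sdiff]
    have h5 : ∑ i ∈ F, g i = ∑ i ∈ F ∩ t, g i + ∑ i ∈ F \ t, g i := by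
      rw [Finset.sum_inter_add_sum_sdiff]
    rw [h4, h5, Finset.inter_comm F t]
    rw [h3] at h1
    linarith

lemma exists_antitone {κ : Type*} [Fintype κ] (c : κ → ℝ) :
    ∃ e : Fin (Fintype.card κ) ≃ κ, Antitone fun k => c (e k) := by
  classical
  set e0 := (Fintype.equivFin κ).symm
  refine ⟨(Tuple.sort (fun k => - c (e0 k))).trans e0, ?_⟩
  have h := Tuple.monotone_sort (fun k => - c (e0 k))
  intro i j hij
  have := h hij
  simp only [Function.comp] at this
  simp only [Equiv.trans_apply]
  linarith

/-- Rearrangement form of majorization. -/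
lemma exists_perm_le {κ : Type*} [Fintype κ] {x y : κ → ℝ} (h : Majorized x y) (c : κ → ℝ) :
    ∃ σ : Equiv.Perm κ, ∑ i, c i * x i ≤ ∑ i, c i * y (σ i) := by
  classical
  obtain ⟨e, he⟩ := exists_antitone c
  obtain ⟨e', he'⟩ := exists_antitone y
  refine ⟨e.symm.trans e', ?_⟩
  have key : 0 ≤ ∑ k : Fin (Fintype.card κ), c (e k) * (y (e' k) - x (e k)) := by
    rcases Nat.eq_zero_or_pos (Fintype.card κ) with h0 | hpos
    · have : IsEmpty (Fin (Fintype.card κ)) := by rw [h0]; infer_instance
      simp
    · obtain ⟨N, hN⟩ : ∃ N, Fintype.card κ = N + 1 := ⟨Fintype.card κ - 1, by omega⟩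
      set a : ℕ → ℝ := fun k => if hk : k < Fintype.card κ then c (e ⟨k, hk⟩) else 0 with ha
      set b : ℕ → ℝ := fun k => if hk : k < Fintype.card κ then y (e' ⟨k, hk⟩) - x (e ⟨k, hk⟩) else 0
        with hb
      have hsum : ∀ k, k ≤ Fintype.card κ → ∀ g : Fin (Fintype.card κ) → ℝ,
          ∑ j ∈ Finset.range k, (if hj : j < Fintype.card κ then g ⟨j, hj⟩ else 0) =
          ∑ i ∈ Finset.univ.filter (fun i : Fin (Fintype.card κ) => i.1 < k), g i := by
        intro k hk g
        rw [Finset.sum_filter]
        have := Fin.sum_univ_eq_sum_range (fun j => if j < k then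
          (if hj : j < Fintype.card κ then g ⟨j, hj⟩ else 0) else 0) (Fintype.card κ)
        have h2 : ∑ i : Fin (Fintype.card κ), (if i.1 < k then g i else 0) =
          ∑ i : Fin (Fintype.card κ), (fun j => if j < k then
          (if hj : j < Fintype.card κ then g ⟨j, hj⟩ else 0) else 0) i.1 := by
          refine Finset.sum_congr rfl fun i _ => ?_
          simp
        rw [h2, this, ← Finset.sum_filter]
        refine Finset.sum_congr ?_ fun _ _ => rfl
        ext j
        simp only [Finset.mem_range, Finset.mem_filter]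
        omega
      have hB : ∀ k, k ≤ Fintype.card κ → 0 ≤ ∑ j ∈ Finset.range k, b j := by
        intro k hk
        rw [hb, hsum k hk (fun i => y (e' i) - x (e i)), Finset.sum_sub_distrib, sub_nonneg]
        set F := Finset.univ.filter (fun i : Fin (Fintype.card κ) => i.1 < k)
        have hFc : F.card = k := by
          have h := Fin.card_filter_val_lt (n := Fintype.card κ) (m := k)
          rw [h]
          exact min_eq_right hk
        obtain ⟨t, ht1, ht2⟩ := h.2 (F.map e.toEmbedding)
        rw [Finset.card_map, hFc] at ht1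
        rw [Finset.sum_map] at ht2
        have h6 := sum_le_first (fun k => y (e' k)) he' (t.map e'.symm.toEmbedding)
        rw [Finset.card_map, ht1, Finset.sum_map] at h6
        simp only [Equiv.coe_toEmbedding, Equiv.apply_symm_apply] at h6 ht2
        exact ht2.trans h6
      have hA := abel_sum a b N (fun k hk => by
          have h1 : k < Fintype.card κ := by omega
          have h2 : k + 1 < Fintype.card κ := by omega
          simp only [ha, h1, h2, dif_pos]
          exact he (by rw [Fin.le_def]; simp))
        (fun k hk => hB (k + 1) (by omega))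
      have hT : ∑ j ∈ Finset.range (N + 1), b j = 0 := by
        rw [← hN, hb, hsum _ le_rfl (fun i => y (e' i) - x (e i)), Finset.sum_sub_distrib]
        have hF : Finset.univ.filter (fun i : Fin (Fintype.card κ) => i.1 < Fintype.card κ) =
          Finset.univ := by
          ext i; simp
        rw [hF, Equiv.sum_comp e' y, Equiv.sum_comp e x, h.1, sub_self]
      rw [hT, mul_zero, ← hN] at hA
      have h7 := hsum _ le_rfl (fun k => c (e k) * (y (e' k) - x (e k)))
      have hF : Finset.univ.filter (fun i : Fin (Fintype.card κ) => i.1 < Fintype.card κ) =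
          Finset.univ := by
        ext i; simp
      rw [hF] at h7
      rw [← h7]
      refine hA.trans (le_of_eq ?_)
      refine Finset.sum_congr rfl fun j hj => ?_
      rw [Finset.mem_range] at hj
      simp only [ha, hb, dif_pos hj]
  have h1 : ∑ i, c i * x i = ∑ k, c (e k) * x (e k) := (Equiv.sum_comp e fun i => c i * x i).symm
  have h2 : ∑ i, c i * y ((e.symm.trans e') i) = ∑ k, c (e k) * y (e' k) := by
    rw [← Equiv.sum_comp e]
    simp
  rw [h1, h2]
  simp only [mul_sub, Finset.sum_sub_distrib] at key
  linarith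

/-- Rado's theorem: a majorized vector is a mean of rearrangements. -/
lemma mem_hull {κ : Type*} [Fintype κ] [DecidableEq κ] {x y : κ → ℝ} (h : Majorized x y) :
    x ∈ convexHull ℝ (Set.range fun σ : Equiv.Perm κ => fun i => y (σ i)) := by
  by_contra hx
  have hcl : IsClosed (convexHull ℝ (Set.range fun σ : Equiv.Perm κ => fun i => y (σ i))) :=
    (Set.finite_range _).isClosed_convexHull ℝ
  obtain ⟨f, u, hf1, hf2⟩ := geometric_hahn_banach_closed_point (convex_convexHull ℝ _) hcl hx
  set c : κ → ℝ := fun i => f (Pi.single i 1) with hc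
  have hf : ∀ z : κ → ℝ, f z = ∑ i, c i * z i := by
    intro z
    have hz : z = ∑ i, z i • (Pi.single i 1 : κ → ℝ) := by
      ext j
      simp [Finset.sum_apply, Pi.single_apply]
    conv_lhs => rw [hz]
    rw [map_sum]
    refine Finset.sum_congr rfl fun i _ => ?_
    rw [map_smul, smul_eq_mul, mul_comm]
  obtain ⟨σ, hσ⟩ := exists_perm_le h c
  have h1 := hf1 _ (subset_convexHull ℝ _ ⟨σ, rfl⟩)
  rw [hf] at h1 hf2
  linarith

end Pool.Agent.MP2725c9
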