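import Mathlib
import Pool.Agent.Lib.MP_2725c9_mp.H22.Hlp

set_option autoImplicit false
open Matrix
open scoped ComplexOrder

namespace Pool.Agent.MP2725c9

/-- Index set of the product basis of the whole space `H_1 ⊗ ... ⊗ H_n`, `H_i = ℂ^(d i)`. -/
abbrev Full {n : ℕ} (d : Fin n → ℕ) : Type := (i : Fin n) → Fin (d i)

/-- Index set of the product basis of `H_I`, the tensor product of the `H_i` with `i ∈ I`. -/
abbrev Idx {n : ℕ} (d : Fin n → ℕ) (I : Finset (Fin n)) : Type :=
  (i : {i // i ∈ I}) → Fin (d i.1)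

/-- Density matrices: positive semidefinite of trace one. -/
def states (κ : Type*) [Fintype κ] : Set (Matrix κ κ ℂ) := {ρ | ρ.PosSemidef ∧ ρ.trace = 1}

/-- The basis vector of the whole space which is `a` on `I` and `c` outside `I`. -/
def glue {n : ℕ} {d : Fin n → ℕ} (I : Finset (Fin n)) (a : Idx d I)
    (c : (i : {i // i ∉ I}) → Fin (d i.1)) : Full d :=
  fun i => if h : i ∈ I then a ⟨i, h⟩ else c ⟨i, h⟩

/-- The reduced matrix `τ_I`: partial trace over all factors outside `I`. -/
def reduced {n : ℕ} {d : Fin n → ℕ} (I : Finset (Fin n)) (τ : Matrix (Full d) (Full d) ℂ) :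
    Matrix (Idx d I) (Idx d I) ℂ :=
  Matrix.of fun a b => ∑ c : ((i : {i // i ∉ I}) → Fin (d i.1)), τ (glue I a c) (glue I b c)

/-- The objective: the sum over all `I` of `f_I (τ_I)`. -/
def objective {n : ℕ} {d : Fin n → ℕ}
    (f : (I : Finset (Fin n)) → Matrix (Idx d I) (Idx d I) ℂ → ℝ)
    (τ : Matrix (Full d) (Full d) ℂ) : ℝ :=
  ∑ I : Finset (Fin n), f I (reduced I τ)

/-- The feasible set: density matrices whose vector of eigenvalues is majorized by `p`. -/
def Feasible {κ : Type*} [Fintype κ] [DecidableEq κ] (p : κ → ℝ) (τ : Matrix κ κ ℂ) : Prop :=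
  τ ∈ states κ ∧ ∃ h : τ.IsHermitian, Majorized h.eigenvalues p

/-- The matrix `W_1 ⊗ ... ⊗ W_n`. -/
def tens {n : ℕ} {d : Fin n → ℕ} (W : (i : Fin n) → Matrix (Fin (d i)) (Fin (d i)) ℂ) :
    Matrix (Full d) (Full d) ℂ :=
  Matrix.of fun x y => ∏ i, W i (x i) (y i)

/-- Classical: diagonal in a product of orthonormal bases (the columns of the unitaries `W_i`). -/
def Classical {n : ℕ} {d : Fin n → ℕ} (τ : Matrix (Full d) (Full d) ℂ) : Prop :=
  ∃ W : (i : Fin n) → Matrix (Fin (d i)) (Fin (d i)) ℂ,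
    (∀ i, W i ∈ Matrix.unitaryGroup (Fin (d i)) ℂ) ∧
    ∃ q : Full d → ℝ, τ = tens W * Matrix.diagonal (fun x => ((q x : ℝ) : ℂ)) * star (tens W)

/-- The statement of Q1 for given `n` and `d`: for every probability vector `p` and every family of
functions that are convex, continuous and unitarily invariant on the density matrices, the maximum
is attained at a classical state. -/
def ClassicalOptimizers {n : ℕ} (d : Fin n → ℕ) : Prop :=
  ∀ p : Full d → ℝ, (∀ x, 0 ≤ p x) → ∑ x, p x = 1 →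
  ∀ f : (I : Finset (Fin n)) → Matrix (Idx d I) (Idx d I) ℂ → ℝ,
    (∀ I, ContinuousOn (f I) (states (Idx d I))) →
    (∀ I, ConvexOn ℝ (states (Idx d I)) (f I)) →
    (∀ I, ∀ U ∈ Matrix.unitaryGroup (Idx d I) ℂ, ∀ ρ ∈ states (Idx d I),
      f I (U * ρ * star U) = f I ρ) →
    ∃ τ, Feasible p τ ∧ Classical τ ∧ ∀ σ, Feasible p σ → objective f σ ≤ objective f τ

/-- A much weaker statement for given `n` and `d`: only the spectra `p` with four entries `1/4`, only
functions that are continuous, convex and unitarily invariant on all matrices, and the maximum need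
only be approximated by classical states. -/
def WeakClassicalOptimizers {n : ℕ} (d : Fin n → ℕ) : Prop :=
  ∀ s : Finset (Full d), s.card = 4 →
  ∀ f : (I : Finset (Fin n)) → Matrix (Idx d I) (Idx d I) ℂ → ℝ,
    (∀ I, Continuous (f I)) → (∀ I, ConvexOn ℝ Set.univ (f I)) →
    (∀ I, ∀ U ∈ Matrix.unitaryGroup (Idx d I) ℂ, ∀ ρ, f I (U * ρ * star U) = f I ρ) →
    ∀ ε : ℝ, 0 < ε → ∃ τ, Feasible (fun x => if x ∈ s then 1 / 4 else 0) τ ∧ Classical τ ∧
      ∀ σ, Feasible (fun x => if x ∈ s then 1 / 4 else 0) σ → objective f σ ≤ objective f τ + ε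

end Pool.Agent.MP2725c9
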