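import Mathlib
import Pool.Agent.Lib.MP_2725c9_mp.H22.Defs

/-! Ky Fan functionals and partial traces of classical states. Copied from `Pool/Agent/S15688.lean`
(helper99) and adapted to the definitions of `Defs.lean`. -/

set_option autoImplicit false
open Matrix
open scoped ComplexOrder

namespace Pool.Agent.MP2725c9

section KF

variable {ι : Type*} [Fintype ι] [DecidableEq ι]
set_option linter.unusedSectionVars false

/-- Orthogonal projectors of rank `k`. -/
def projSet (k : ℕ) : Set (Matrix ι ι ℂ) :=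
  {P | P.IsHermitian ∧ P * P = P ∧ P.trace = (k : ℂ)}

/-- Ky Fan functional: largest value of `tr (P ρ)` over rank `k` projectors. -/
noncomputable def kf (k : ℕ) (ρ : Matrix ι ι ℂ) : ℝ :=
  sSup ((fun P : Matrix ι ι ℂ => ((P * ρ).trace).re) '' projSet k)

lemma proj_diag {k : ℕ} {P : Matrix ι ι ℂ} (hP : P ∈ projSet k) (i : ι) :
    (P i i) = ((∑ j, ‖P i j‖ ^ 2 : ℝ) : ℂ) := by
  obtain ⟨h1, h2, -⟩ := hP
  have : P i i = (P * P) i i := by rw [h2]
  rw [this, Matrix.mul_apply]
  push_cast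
  refine Finset.sum_congr rfl fun j _ => ?_
  have h3 : P j i = star (P i j) := by
    have := h1.apply i j
    rw [← this, star_star]
  rw [h3]
  have := Complex.mul_conj (P i j)
  simp only [Complex.star_def]
  rw [this, Complex.normSq_eq_norm_sq]
  push_cast
  rfl

lemma proj_diag_re {k : ℕ} {P : Matrix ι ι ℂ} (hP : P ∈ projSet k) (i : ι) :
    (P i i).re = ∑ j, ‖P i j‖ ^ 2 := by
  rw [proj_diag hP i, Complex.ofReal_re]

lemma proj_diag_nonneg {k : ℕ} {P : Matrix ι ι ℂ} (hP : P ∈ projSet k) (i : ι) :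
    0 ≤ (P i i).re := by
  rw [proj_diag_re hP i]
  positivity

lemma proj_diag_norm {k : ℕ} {P : Matrix ι ι ℂ} (hP : P ∈ projSet k) (i : ι) :
    ‖P i i‖ = (P i i).re := by
  rw [proj_diag hP i, Complex.norm_real, Complex.ofReal_re, Real.norm_of_nonneg (by positivity)]

lemma proj_entry_sq {k : ℕ} {P : Matrix ι ι ℂ} (hP : P ∈ projSet k) (i j : ι) :
    ‖P i j‖ ^ 2 ≤ (P i i).re := by
  rw [proj_diag_re hP i]
  exact Finset.single_le_sum (f := fun j => ‖P i j‖ ^ 2) (fun _ _ => by positivity)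
    (Finset.mem_univ j)

lemma proj_diag_le_one {k : ℕ} {P : Matrix ι ι ℂ} (hP : P ∈ projSet k) (i : ι) :
    (P i i).re ≤ 1 := by
  have h := proj_entry_sq hP i i
  rw [proj_diag_norm hP i] at h
  nlinarith [proj_diag_nonneg hP i]

lemma proj_entry_le_one {k : ℕ} {P : Matrix ι ι ℂ} (hP : P ∈ projSet k) (i j : ι) :
    ‖P i j‖ ≤ 1 := by
  have h := proj_entry_sq hP i j
  have h2 := proj_diag_le_one hP i
  nlinarith [norm_nonneg (P i j)]

lemma trace_bound {k : ℕ} {P : Matrix ι ι ℂ} (hP : P ∈ projSet k) (ρ : Matrix ι ι ℂ) :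
    |((P * ρ).trace).re| ≤ ∑ i, ∑ j, ‖ρ j i‖ := by
  calc |((P * ρ).trace).re| ≤ ‖(P * ρ).trace‖ := Complex.abs_re_le_norm _
    _ = ‖∑ i, ∑ j, P i j * ρ j i‖ := by
        simp [Matrix.trace, Matrix.mul_apply]
    _ ≤ ∑ i, ∑ j, ‖P i j * ρ j i‖ :=
        (norm_sum_le _ _).trans (Finset.sum_le_sum fun i _ => norm_sum_le _ _)
    _ ≤ ∑ i, ∑ j, ‖ρ j i‖ := by
        refine Finset.sum_le_sum fun i _ => Finset.sum_le_sum fun j _ => ?_
        rw [norm_mul]
        have := proj_entry_le_one hP i j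
        nlinarith [norm_nonneg (ρ j i)]

lemma kf_bdd (k : ℕ) (ρ : Matrix ι ι ℂ) :
    BddAbove ((fun P : Matrix ι ι ℂ => ((P * ρ).trace).re) '' projSet k) := by
  refine ⟨∑ i, ∑ j, ‖ρ j i‖, ?_⟩
  rintro _ ⟨P, hP, rfl⟩
  exact (le_abs_self _).trans (trace_bound hP ρ)

lemma le_kf {k : ℕ} {P : Matrix ι ι ℂ} (hP : P ∈ projSet k) (ρ : Matrix ι ι ℂ) :
    ((P * ρ).trace).re ≤ kf k ρ :=
  le_csSup (kf_bdd k ρ) ⟨P, hP, rfl⟩

lemma kf_empty {k : ℕ} (h : (projSet k : Set (Matrix ι ι ℂ)) = ∅) (ρ : Matrix ι ι ℂ) :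
    kf k ρ = 0 := by
  simp [kf, h]

lemma kf_le {k : ℕ} (hne : (projSet k : Set (Matrix ι ι ℂ)).Nonempty) {ρ : Matrix ι ι ℂ} {M : ℝ}
    (h : ∀ P ∈ (projSet k : Set (Matrix ι ι ℂ)), ((P * ρ).trace).re ≤ M) : kf k ρ ≤ M := by
  refine csSup_le (hne.image _) ?_
  rintro _ ⟨P, hP, rfl⟩
  exact h P hP

lemma kf_lip (k : ℕ) (ρ σ : Matrix ι ι ℂ) :
    kf k ρ ≤ kf k σ + ∑ i, ∑ j, ‖ρ j i - σ j i‖ := by
  rcases Set.eq_empty_or_nonempty (projSet k : Set (Matrix ι ι ℂ)) with he | hne
  · rw [kf_empty he, kf_empty he]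
    positivity
  · refine kf_le hne fun P hP => ?_
    have h1 := le_kf hP σ
    have h2 := trace_bound hP (ρ - σ)
    have h3 : ((P * ρ).trace).re = ((P * σ).trace).re + ((P * (ρ - σ)).trace).re := by
      rw [Matrix.mul_sub, Matrix.trace_sub, Complex.sub_re]; ring
    have h4 := le_abs_self ((P * (ρ - σ)).trace).re
    simp only [Matrix.sub_apply] at h2
    linarith

lemma kf_continuous (k : ℕ) : Continuous (kf k : Matrix ι ι ℂ → ℝ) := by
  rw [continuous_iff_continuousAt]
  intro σ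
  have hg : Continuous fun ρ : Matrix ι ι ℂ => ∑ i, ∑ j, ‖ρ j i - σ j i‖ := by
    refine continuous_finsetSum _ fun i _ => continuous_finsetSum _ fun j _ => ?_
    exact ((continuous_id.matrix_elem j i).sub continuous_const).norm
  have hg0 : Filter.Tendsto (fun ρ : Matrix ι ι ℂ => ∑ i, ∑ j, ‖ρ j i - σ j i‖) (nhds σ)
      (nhds 0) := by
    have := hg.tendsto σ
    simpa using this
  have hab : ∀ ρ : Matrix ι ι ℂ, |kf k ρ - kf k σ| ≤ ∑ i, ∑ j, ‖ρ j i - σ j i‖ := by
    intro ρ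
    rw [abs_le]
    have h1 := kf_lip k ρ σ
    have h2 := kf_lip k σ ρ
    simp only [norm_sub_rev (σ _ _) (ρ _ _)] at h2
    constructor <;> linarith
  rw [ContinuousAt, tendsto_iff_dist_tendsto_zero]
  refine squeeze_zero (fun _ => dist_nonneg) (fun ρ => ?_) hg0
  rw [Real.dist_eq]
  exact hab ρ

lemma kf_convex (k : ℕ) {S : Set (Matrix ι ι ℂ)} (hS : Convex ℝ S) :
    ConvexOn ℝ S (kf k : Matrix ι ι ℂ → ℝ) := by
  refine ⟨hS, ?_⟩
  intro ρ _ σ _ a b ha hb _
  rcases Set.eq_empty_or_nonempty (projSet k : Set (Matrix ι ι ℂ)) with he | hne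
  · simp [kf_empty he]
  · refine kf_le hne fun P hP => ?_
    have h1 := le_kf hP ρ
    have h2 := le_kf hP σ
    have h3 : ((P * (a • ρ + b • σ)).trace).re = a * ((P * ρ).trace).re + b * ((P * σ).trace).re := by
      rw [Matrix.mul_add, Matrix.mul_smul, Matrix.mul_smul, Matrix.trace_add, Matrix.trace_smul,
        Matrix.trace_smul]
      simp
    rw [h3]
    simp only [smul_eq_mul]
    nlinarith

lemma projSet_conj {k : ℕ} {P : Matrix ι ι ℂ} (hP : P ∈ projSet k) {U : Matrix ι ι ℂ}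
    (hU : U ∈ Matrix.unitaryGroup ι ℂ) : star U * P * U ∈ projSet k := by
  obtain ⟨h1, h2, h3⟩ := hP
  have hU2 : U * star U = 1 := Matrix.mem_unitaryGroup_iff.mp hU
  refine ⟨?_, ?_, ?_⟩
  · rw [Matrix.IsHermitian, Matrix.star_eq_conjTranspose, Matrix.conjTranspose_mul,
      Matrix.conjTranspose_mul, Matrix.conjTranspose_conjTranspose, h1.eq, Matrix.mul_assoc]
  · calc star U * P * U * (star U * P * U) = star U * P * (U * star U) * P * U := by
          simp only [Matrix.mul_assoc]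
      _ = star U * (P * P) * U := by rw [hU2]; simp only [Matrix.mul_assoc, Matrix.one_mul]
      _ = star U * P * U := by rw [h2]
  · rw [Matrix.trace_mul_comm, ← Matrix.mul_assoc, hU2, Matrix.one_mul, h3]

lemma kf_unitary_le (k : ℕ) {U : Matrix ι ι ℂ} (hU : U ∈ Matrix.unitaryGroup ι ℂ)
    (ρ : Matrix ι ι ℂ) : kf k (U * ρ * star U) ≤ kf k ρ := by
  rcases Set.eq_empty_or_nonempty (projSet k : Set (Matrix ι ι ℂ)) with he | hne
  · simp [kf_empty he]
  · refine kf_le hne fun P hP => ?_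
    have h := le_kf (projSet_conj hP hU) ρ
    have h2 : (P * (U * ρ * star U)).trace = (star U * P * U * ρ).trace := by
      calc (P * (U * ρ * star U)).trace = ((P * U * ρ) * star U).trace := by
            simp only [Matrix.mul_assoc]
        _ = (star U * (P * U * ρ)).trace := Matrix.trace_mul_comm _ _
        _ = _ := by simp only [Matrix.mul_assoc]
    rw [h2]
    exact h

lemma kf_unitary (k : ℕ) {U : Matrix ι ι ℂ} (hU : U ∈ Matrix.unitaryGroup ι ℂ)
    (ρ : Matrix ι ι ℂ) : kf k (U * ρ * star U) = kf k ρ := by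
  refine le_antisymm (kf_unitary_le k hU ρ) ?_
  have hU' : star U ∈ Matrix.unitaryGroup ι ℂ := by
    rw [Matrix.mem_unitaryGroup_iff, star_star]
    exact Matrix.mem_unitaryGroup_iff'.mp hU
  have h := kf_unitary_le k hU' (U * ρ * star U)
  have h1 : star U * U = 1 := Matrix.mem_unitaryGroup_iff'.mp hU
  have h2 : star U * (U * ρ * star U) * star (star U) = ρ := by
    rw [star_star]
    calc star U * (U * ρ * star U) * U = (star U * U) * ρ * (star U * U) := by
          simp only [Matrix.mul_assoc]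
      _ = ρ := by rw [h1, Matrix.one_mul, Matrix.mul_one]
  rwa [h2] at h

end KF

section PT

variable {n : ℕ} {d : Fin n → ℕ}

/-- The product matrix restricted to the factors in `I`. -/
noncomputable def WI (W : (i : Fin n) → Matrix (Fin (d i)) (Fin (d i)) ℂ) (I : Finset (Fin n)) :
    Matrix ((i : {i // i ∈ I}) → Fin (d i.1)) ((i : {i // i ∈ I}) → Fin (d i.1)) ℂ :=
  Matrix.of fun a b => ∏ i, W i.1 (a i) (b i)

lemma prod_unitary {κ : Type*} [Fintype κ] [DecidableEq κ] {e : κ → ℕ}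
    (W : (i : κ) → Matrix (Fin (e i)) (Fin (e i)) ℂ)
    (hW : ∀ i, W i ∈ Matrix.unitaryGroup (Fin (e i)) ℂ) :
    (Matrix.of fun a b : ((i : κ) → Fin (e i)) => ∏ i, W i (a i) (b i)) ∈
      Matrix.unitaryGroup ((i : κ) → Fin (e i)) ℂ := by
  rw [Matrix.mem_unitaryGroup_iff]
  ext a b
  rw [Matrix.mul_apply]
  simp only [Matrix.star_apply, Matrix.of_apply, star_prod, ← Finset.prod_mul_distrib]
  have h1 : ∀ i, ∑ j, W i (a i) j * star (W i (b i) j) = (1 : Matrix (Fin (e i)) (Fin (e i)) ℂ) (a i) (b i) := by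
    intro i
    have := Matrix.mem_unitaryGroup_iff.mp (hW i)
    rw [← this, Matrix.mul_apply]
    rfl
  have h2 := Finset.prod_univ_sum (R := ℂ) (fun i : κ => (Finset.univ : Finset (Fin (e i))))
    (fun i j => W i (a i) j * star (W i (b i) j))
  rw [Fintype.piFinset_univ] at h2
  rw [← h2, Finset.prod_congr rfl (fun i _ => h1 i)]
  by_cases hab : a = b
  · subst hab; simp
  · rw [Matrix.one_apply_ne hab]
    obtain ⟨i, hi⟩ := Function.ne_iff.mp hab
    exact Finset.prod_eq_zero (Finset.mem_univ i) (Matrix.one_apply_ne hi)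

lemma conj_diag_apply {κ : Type*} [Fintype κ] [DecidableEq κ] (V : Matrix κ κ ℂ) (q : κ → ℂ)
    (x y : κ) : (V * Matrix.diagonal q * star V) x y = ∑ z, q z * (V x z * star (V y z)) := by
  rw [Matrix.mul_apply]
  refine Finset.sum_congr rfl fun z _ => ?_
  rw [Matrix.mul_diagonal, Matrix.star_apply]
  ring

lemma ptr_classical (W : (i : Fin n) → Matrix (Fin (d i)) (Fin (d i)) ℂ)
    (hW : ∀ i, W i ∈ Matrix.unitaryGroup (Fin (d i)) ℂ)
    (q : ((i : Fin n) → Fin (d i)) → ℝ) (I : Finset (Fin n))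
    (a b : (i : {i // i ∈ I}) → Fin (d i.1)) :
    reduced I (tens W * Matrix.diagonal (fun x => ((q x : ℝ) : ℂ)) * star (tens W)) a b =
    ∑ x : ((i : Fin n) → Fin (d i)), (q x : ℂ) *
      (WI W I a (fun i => x i.1) * star (WI W I b (fun i => x i.1))) := by
  simp only [reduced, Matrix.of_apply, conj_diag_apply]
  rw [Finset.sum_comm]
  refine Finset.sum_congr rfl fun x _ => ?_
  simp only [WI, tens, Matrix.of_apply]
  have key : ∀ (a : (i : {i // i ∈ I}) → Fin (d i.1)) (c : (i : {i // i ∉ I}) → Fin (d i.1)),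
      ∏ i, W i (glue I a c i) (x i) =
        (∏ i : {i // i ∈ I}, W i.1 (a i) (x i.1)) * ∏ i : {i // i ∉ I}, W i.1 (c i) (x i.1) := by
    intro a c
    unfold glue
    rw [← Fintype.prod_subtype_mul_prod_subtype (fun i => i ∈ I)]
    congr 1
    · refine Finset.prod_congr (Finset.ext (by simp)) fun i _ => ?_
      rw [dif_pos i.2]
    · refine Finset.prod_congr (Finset.ext (by simp)) fun i _ => ?_
      rw [dif_neg i.2]
  simp only [key, star_mul']
  have h2 := Finset.prod_univ_sum (R := ℂ)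
    (fun i : {i // i ∉ I} => (Finset.univ : Finset (Fin (d i.1))))
    (fun i j => W i.1 j (x i.1) * star (W i.1 j (x i.1)))
  rw [Fintype.piFinset_univ] at h2
  have h1 : ∀ i : {i // i ∉ I}, ∑ j, W i.1 j (x i.1) * star (W i.1 j (x i.1)) = 1 := by
    intro i
    have := Matrix.mem_unitaryGroup_iff'.mp (hW i.1)
    have h3 := congrFun (congrFun this (x i.1)) (x i.1)
    rw [Matrix.mul_apply, Matrix.one_apply_eq] at h3
    rw [← h3]
    refine Finset.sum_congr rfl fun j _ => ?_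
    rw [Matrix.star_apply, mul_comm]
  rw [Finset.prod_congr rfl (fun i _ => h1 i), Finset.prod_const_one] at h2
  simp only [Finset.prod_mul_distrib] at h2
  calc _ = ((q x : ℂ) * ((∏ i : {i // i ∈ I}, W i.1 (a i) (x i.1)) *
        star (∏ i : {i // i ∈ I}, W i.1 (b i) (x i.1)))) *
        ∑ c : ((i : {i // i ∉ I}) → Fin (d i.1)),
          (∏ i : {i // i ∉ I}, W i.1 (c i) (x i.1)) *
            ∏ i : {i // i ∉ I}, star (W i.1 (c i) (x i.1)) := by
        rw [Finset.mul_sum]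
        refine Finset.sum_congr rfl fun c _ => ?_
        simp only [star_prod]
        ring
    _ = _ := by rw [← h2, mul_one]

/-- The value of a projector on a classical state. -/
lemma trace_classical (W : (i : Fin n) → Matrix (Fin (d i)) (Fin (d i)) ℂ)
    (hW : ∀ i, W i ∈ Matrix.unitaryGroup (Fin (d i)) ℂ)
    (q : ((i : Fin n) → Fin (d i)) → ℝ) (I : Finset (Fin n))
    (P : Matrix ((i : {i // i ∈ I}) → Fin (d i.1)) ((i : {i // i ∈ I}) → Fin (d i.1)) ℂ) :
    (P * reduced I (tens W * Matrix.diagonal (fun x => ((q x : ℝ) : ℂ)) * star (tens W))).trace.re =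
    ∑ x : ((i : Fin n) → Fin (d i)), q x *
      ((star (WI W I) * P * WI W I) (fun i => x i.1) (fun i => x i.1)).re := by
  have h : (P * reduced I (tens W * Matrix.diagonal (fun x => ((q x : ℝ) : ℂ)) *
      star (tens W))).trace =
    ∑ x : ((i : Fin n) → Fin (d i)), (q x : ℂ) *
      ((star (WI W I) * P * WI W I) (fun i => x i.1) (fun i => x i.1)) := by
    rw [Matrix.trace]
    simp only [Matrix.diag_apply]
    simp_rw [Matrix.mul_apply (M := P), ptr_classical W hW, Matrix.mul_apply, Matrix.star_apply]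
    simp only [Finset.mul_sum, Finset.sum_mul]
    rw [Finset.sum_congr rfl (fun a _ => Finset.sum_comm)]
    rw [Finset.sum_comm]
    refine Finset.sum_congr rfl fun x _ => ?_
    rw [Finset.sum_comm]
    refine Finset.sum_congr rfl fun a _ => ?_
    refine Finset.sum_congr rfl fun b _ => ?_
    ring
  rw [h, Complex.re_sum]
  refine Finset.sum_congr rfl fun x _ => ?_
  rw [Complex.re_ofReal_mul]

end PT

section Spec

variable {κ : Type*} [Fintype κ] [DecidableEq κ]
set_option linter.unusedSectionVars false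

lemma spec_eq {U V : Matrix κ κ ℂ} (hV : V ∈ Matrix.unitaryGroup κ ℂ) {r q : κ → ℝ}
    (h : U * Matrix.diagonal (fun x => ((r x : ℝ) : ℂ)) * star U =
      V * Matrix.diagonal (fun x => ((q x : ℝ) : ℂ)) * star V) (x : κ) :
    q x = ∑ z, r z * ‖(star V * U) x z‖ ^ 2 := by
  have hV1 : star V * V = 1 := Matrix.mem_unitaryGroup_iff'.mp hV
  have h1 : (star V * U) * Matrix.diagonal (fun x => ((r x : ℝ) : ℂ)) * star (star V * U) =
      Matrix.diagonal (fun x => ((q x : ℝ) : ℂ)) := by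
    calc (star V * U) * Matrix.diagonal (fun x => ((r x : ℝ) : ℂ)) * star (star V * U)
        = star V * (U * Matrix.diagonal (fun x => ((r x : ℝ) : ℂ)) * star U) * V := by
          rw [StarMul.star_mul, star_star]; simp only [Matrix.mul_assoc]
      _ = (star V * V) * Matrix.diagonal (fun x => ((q x : ℝ) : ℂ)) * (star V * V) := by
          rw [h]; simp only [Matrix.mul_assoc]
      _ = _ := by rw [hV1, Matrix.one_mul, Matrix.mul_one]
  have h2 := congrFun (congrFun h1 x) x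
  rw [conj_diag_apply, Matrix.diagonal_apply_eq] at h2
  have h3 : ((q x : ℝ) : ℂ) = ((∑ z, r z * ‖(star V * U) x z‖ ^ 2 : ℝ) : ℂ) := by
    rw [← h2]
    push_cast
    refine Finset.sum_congr rfl fun z _ => ?_
    have := Complex.mul_conj ((star V * U) x z)
    rw [Complex.star_def, this, Complex.normSq_eq_norm_sq]
    push_cast
    rfl
  exact_mod_cast h3

lemma unitary_row {T : Matrix κ κ ℂ} (hT : T * star T = 1) (x : κ) : ∑ z, ‖T x z‖ ^ 2 = 1 := by
  have h2 := congrFun (congrFun hT x) x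
  rw [Matrix.mul_apply, Matrix.one_apply_eq] at h2
  have h3 : ((∑ z, ‖T x z‖ ^ 2 : ℝ) : ℂ) = ((1 : ℝ) : ℂ) := by
    rw [Complex.ofReal_one, ← h2]
    push_cast
    refine Finset.sum_congr rfl fun z _ => ?_
    have := Complex.mul_conj (T x z)
    rw [Matrix.star_apply, Complex.star_def, this, Complex.normSq_eq_norm_sq]
    push_cast
    rfl
  exact_mod_cast h3

lemma spec_bounds {U V : Matrix κ κ ℂ} (hU : U ∈ Matrix.unitaryGroup κ ℂ)
    (hV : V ∈ Matrix.unitaryGroup κ ℂ) {r q : κ → ℝ}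
    (h : U * Matrix.diagonal (fun x => ((r x : ℝ) : ℂ)) * star U =
      V * Matrix.diagonal (fun x => ((q x : ℝ) : ℂ)) * star V) {c : ℝ}
    (hr0 : ∀ x, 0 ≤ r x) (hrc : ∀ x, r x ≤ c) (hr1 : ∑ x, r x = 1) :
    (∀ x, 0 ≤ q x) ∧ (∀ x, q x ≤ c) ∧ ∑ x, q x = 1 := by
  have hU1 : U * star U = 1 := Matrix.mem_unitaryGroup_iff.mp hU
  have hU2 : star U * U = 1 := Matrix.mem_unitaryGroup_iff'.mp hU
  have hV1 : star V * V = 1 := Matrix.mem_unitaryGroup_iff'.mp hV
  have hV2 : V * star V = 1 := Matrix.mem_unitaryGroup_iff.mp hV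
  have hT : (star V * U) * star (star V * U) = 1 := by
    rw [StarMul.star_mul, star_star]
    calc star V * U * (star U * V) = star V * (U * star U) * V := by simp only [Matrix.mul_assoc]
      _ = 1 := by rw [hU1, Matrix.mul_one, hV1]
  have hT' : star (star V * U) * star (star (star V * U)) = 1 := by
    rw [star_star, StarMul.star_mul, star_star]
    calc star U * V * (star V * U) = star U * (V * star V) * U := by simp only [Matrix.mul_assoc]
      _ = 1 := by rw [hV2, Matrix.mul_one, hU2]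
  refine ⟨fun x => ?_, fun x => ?_, ?_⟩
  · rw [spec_eq hV h x]
    exact Finset.sum_nonneg fun z _ => mul_nonneg (hr0 z) (by positivity)
  · rw [spec_eq hV h x]
    calc ∑ z, r z * ‖(star V * U) x z‖ ^ 2 ≤ ∑ z, c * ‖(star V * U) x z‖ ^ 2 :=
          Finset.sum_le_sum fun z _ => mul_le_mul_of_nonneg_right (hrc z) (by positivity)
      _ = c := by rw [← Finset.mul_sum, unitary_row hT x, mul_one]
  · rw [Finset.sum_congr rfl (fun x _ => spec_eq hV h x), Finset.sum_comm]
    rw [← hr1]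
    refine Finset.sum_congr rfl fun z _ => ?_
    rw [← Finset.mul_sum]
    have := unitary_row hT' z
    simp only [Matrix.star_apply, norm_star] at this
    rw [this, mul_one]

end Spec

section Bounds

variable {n : ℕ} {d : Fin n → ℕ}

/-- Marginal of `q`. -/
noncomputable def marg (I : Finset (Fin n)) (q : ((i : Fin n) → Fin (d i)) → ℝ)
    (y : (i : {i // i ∈ I}) → Fin (d i.1)) : ℝ :=
  ∑ x : ((i : Fin n) → Fin (d i)), if (fun i : {i // i ∈ I} => x i.1) = y then q x else 0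

lemma sum_marg (I : Finset (Fin n)) (q : ((i : Fin n) → Fin (d i)) → ℝ)
    (s : ((i : {i // i ∈ I}) → Fin (d i.1)) → ℝ) :
    ∑ x : ((i : Fin n) → Fin (d i)), q x * s (fun i => x i.1) = ∑ y, s y * marg I q y := by
  simp only [marg, Finset.mul_sum]
  rw [Finset.sum_comm]
  refine Finset.sum_congr rfl fun x _ => ?_
  simp only [mul_ite, mul_zero]
  rw [Finset.sum_ite_eq]
  simp [mul_comm]

lemma weighted_two {κ : Type*} [Fintype κ] [DecidableEq κ] (g : κ → ℝ)
    (hc : 2 ≤ Fintype.card κ) :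
    ∃ y y', y ≠ y' ∧ ∀ s : κ → ℝ, (∀ x, 0 ≤ s x) → (∀ x, s x ≤ 1) → ∑ x, s x = 2 →
      ∑ x, s x * g x ≤ g y + g y' := by
  have hne : (Finset.univ : Finset κ).Nonempty := by
    rw [← Finset.card_pos, Finset.card_univ]; omega
  obtain ⟨y, -, hy⟩ := Finset.exists_max_image Finset.univ g hne
  have hne2 : ((Finset.univ : Finset κ).erase y).Nonempty := by
    rw [← Finset.card_pos, Finset.card_erase_of_mem (Finset.mem_univ y), Finset.card_univ]; omega
  obtain ⟨y', hy'1, hy'⟩ := Finset.exists_max_image _ g hne2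
  refine ⟨y, y', (Finset.ne_of_mem_erase hy'1).symm, fun s h0 h1 h2 => ?_⟩
  have e1 : ∑ x, s x * g x = ∑ x, s x * (g x - g y') + 2 * g y' := by
    rw [← h2, Finset.sum_mul, ← Finset.sum_add_distrib]
    refine Finset.sum_congr rfl fun x _ => ?_
    ring
  have e2 : ∑ x, s x * (g x - g y') ≤ ∑ x, if x = y then (g y - g y') else 0 := by
    refine Finset.sum_le_sum fun x _ => ?_
    split_ifs with hx
    · subst hx
      have : 0 ≤ g x - g y' := sub_nonneg.mpr (hy y' (Finset.mem_univ _))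
      nlinarith [h1 x]
    · have : g x - g y' ≤ 0 := sub_nonpos.mpr (hy' x (Finset.mem_erase.mpr ⟨hx, Finset.mem_univ _⟩))
      nlinarith [h0 x]
  rw [Finset.sum_ite_eq' Finset.univ y] at e2
  simp only [Finset.mem_univ, if_true] at e2
  linarith

lemma weighted_one {κ : Type*} [Fintype κ] [Nonempty κ] (g : κ → ℝ) :
    ∃ y, ∀ s : κ → ℝ, (∀ x, 0 ≤ s x) → ∑ x, s x = 1 → ∑ x, s x * g x ≤ g y := by
  obtain ⟨y, -, hy⟩ := Finset.exists_max_image (Finset.univ : Finset κ) g Finset.univ_nonempty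
  refine ⟨y, fun s h0 h1 => ?_⟩
  calc ∑ x, s x * g x ≤ ∑ x, s x * g y :=
        Finset.sum_le_sum fun x hx => mul_le_mul_of_nonneg_left (hy x hx) (h0 x)
    _ = g y := by rw [← Finset.sum_mul, h1, one_mul]

lemma proj_trace_re {κ : Type*} [Fintype κ] [DecidableEq κ] {k : ℕ} {P : Matrix κ κ ℂ}
    (hP : P ∈ projSet k) : ∑ x, (P x x).re = k := by
  have := congrArg Complex.re hP.2.2
  rw [Matrix.trace, Complex.re_sum] at this
  simpa using this

lemma kf_one_classical (W : (i : Fin n) → Matrix (Fin (d i)) (Fin (d i)) ℂ)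
    (hW : ∀ i, W i ∈ Matrix.unitaryGroup (Fin (d i)) ℂ)
    (q : ((i : Fin n) → Fin (d i)) → ℝ) (I : Finset (Fin n))
    [Nonempty ((i : {i // i ∈ I}) → Fin (d i.1))]
    (hne : (projSet 1 : Set (Matrix ((i : {i // i ∈ I}) → Fin (d i.1))
      ((i : {i // i ∈ I}) → Fin (d i.1)) ℂ)).Nonempty) :
    ∃ y, kf 1 (reduced I (tens W * Matrix.diagonal (fun x => ((q x : ℝ) : ℂ)) * star (tens W))) ≤
      marg I q y := by
  obtain ⟨y, hy⟩ := weighted_one (marg I q)
  refine ⟨y, kf_le hne fun P hP => ?_⟩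
  have hWI : WI W I ∈ Matrix.unitaryGroup _ ℂ := prod_unitary (fun i : {i // i ∈ I} => W i.1)
    (fun i => hW i.1)
  have hQ := projSet_conj hP hWI
  rw [trace_classical W hW q I P,
    sum_marg I q (fun y => ((star (WI W I) * P * WI W I) y y).re)]
  refine hy _ (fun x => proj_diag_nonneg hQ x) ?_
  rw [proj_trace_re hQ]
  simp

lemma kf_two_classical (W : (i : Fin n) → Matrix (Fin (d i)) (Fin (d i)) ℂ)
    (hW : ∀ i, W i ∈ Matrix.unitaryGroup (Fin (d i)) ℂ)
    (q : ((i : Fin n) → Fin (d i)) → ℝ) (I : Finset (Fin n))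
    (hc : 2 ≤ Fintype.card ((i : {i // i ∈ I}) → Fin (d i.1)))
    (hne : (projSet 2 : Set (Matrix ((i : {i // i ∈ I}) → Fin (d i.1))
      ((i : {i // i ∈ I}) → Fin (d i.1)) ℂ)).Nonempty) :
    ∃ y y', y ≠ y' ∧
      kf 2 (reduced I (tens W * Matrix.diagonal (fun x => ((q x : ℝ) : ℂ)) * star (tens W))) ≤
        marg I q y + marg I q y' := by
  obtain ⟨y, y', hyy, hy⟩ := weighted_two (marg I q) hc
  refine ⟨y, y', hyy, kf_le hne fun P hP => ?_⟩
  have hWI : WI W I ∈ Matrix.unitaryGroup _ ℂ := prod_unitary (fun i : {i // i ∈ I} => W i.1)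
    (fun i => hW i.1)
  have hQ := projSet_conj hP hWI
  rw [trace_classical W hW q I P,
    sum_marg I q (fun y => ((star (WI W I) * P * WI W I) y y).re)]
  refine hy _ (fun x => proj_diag_nonneg hQ x) (fun x => proj_diag_le_one hQ x) ?_
  rw [proj_trace_re hQ]
  simp

end Bounds

end Pool.Agent.MP2725c9
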