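import Mathlib
import Pool.Agent.Lib.MP_2725c9_mp.H22.Kf

set_option autoImplicit false
open Matrix
open scoped ComplexOrder

namespace Pool.Agent.MP2725c9

/-- Three bits. -/
abbrev B3 := Fin 2 × Fin 2 × Fin 2

section Fin

/-- Integer weights of the extreme points. -/
def wtN (u : Fin 2 × Fin 2) (v : Fin 2) (w w' : Fin 2 × Fin 2) (y : B3) : ℕ :=
  2 * (if (y.1, y.2.1) = u then 1 else 0) + (if y.2.2 = v then 1 else 0) +
  (if (y.1, y.2.2) = w then 1 else 0) + (if (y.1, y.2.2) = w' then 1 else 0)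

set_option maxRecDepth 100000 in
lemma wtN_bound : ∀ (u : Fin 2 × Fin 2) (v : Fin 2) (w w' : Fin 2 × Fin 2), w ≠ w' →
    ∃ t ∈ Finset.range 5, ∑ y : B3, (wtN u v w w' y - t) + 4 * t ≤ 10 := by
  decide

lemma wtN_sum_le (q : B3 → ℝ) (h0 : ∀ x, 0 ≤ q x) (hc : ∀ x, q x ≤ 1 / 4) (h1 : ∑ x, q x ≤ 1)
    (u : Fin 2 × Fin 2) (v : Fin 2) (w w' : Fin 2 × Fin 2) (hw : w ≠ w') :
    ∑ x, q x * (wtN u v w w' x : ℝ) ≤ 5 / 2 := by
  obtain ⟨t, -, ht⟩ := wtN_bound u v w w' hw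
  have ht' : (∑ x : B3, ((wtN u v w w' x - t : ℕ) : ℝ)) + 4 * (t : ℝ) ≤ 10 := by
    exact_mod_cast ht
  calc ∑ x, q x * (wtN u v w w' x : ℝ)
      ≤ ∑ x, (q x * (t : ℝ) + 1 / 4 * ((wtN u v w w' x - t : ℕ) : ℝ)) := by
        refine Finset.sum_le_sum fun x _ => ?_
        have h2 : (wtN u v w w' x : ℝ) ≤ (t : ℝ) + ((wtN u v w w' x - t : ℕ) : ℝ) := by
          exact_mod_cast le_add_tsub
        have h3 : (0 : ℝ) ≤ ((wtN u v w w' x - t : ℕ) : ℝ) := Nat.cast_nonneg _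
        calc q x * (wtN u v w w' x : ℝ)
            ≤ q x * ((t : ℝ) + ((wtN u v w w' x - t : ℕ) : ℝ)) :=
              mul_le_mul_of_nonneg_left h2 (h0 x)
          _ = q x * (t : ℝ) + q x * ((wtN u v w w' x - t : ℕ) : ℝ) := by ring
          _ ≤ _ := by
              have := mul_le_mul_of_nonneg_right (hc x) h3
              linarith
    _ = (∑ x, q x) * (t : ℝ) + 1 / 4 * ∑ x : B3, ((wtN u v w w' x - t : ℕ) : ℝ) := by
        rw [Finset.sum_add_distrib, ← Finset.sum_mul, Finset.mul_sum]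
    _ ≤ 1 * (t : ℝ) + 1 / 4 * ∑ x : B3, ((wtN u v w w' x - t : ℕ) : ℝ) := by
        have := mul_le_mul_of_nonneg_right h1 (Nat.cast_nonneg (α := ℝ) t)
        linarith
    _ ≤ 5 / 2 := by linarith

end Fin

section Emb

variable {n : ℕ} {d : Fin n → ℕ}

/-- Is the bit of `y` at the place `i` set? -/
def bit (a b c : Fin n) (y : B3) (i : Fin n) : Prop :=
  (i = a ∧ y.1 = 1) ∨ (i = b ∧ y.2.1 = 1) ∨ (i = c ∧ y.2.2 = 1)

instance (a b c : Fin n) (y : B3) (i : Fin n) : Decidable (bit a b c y i) := by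
  unfold bit; infer_instance

/-- The basis vector with the bits `y` at the places `a`, `b`, `c`. -/
def emb (a b c : Fin n) (t0 t1 : (i : Fin n) → Fin (d i)) (y : B3) : Full d :=
  fun i => if bit a b c y i then t1 i else t0 i

variable {a b c : Fin n} (hab : a ≠ b) (hac : a ≠ c) (hbc : b ≠ c)
  (t0 t1 : (i : Fin n) → Fin (d i))

include hab hac in
lemma emb_a (y : B3) : emb a b c t0 t1 y a = if y.1 = 1 then t1 a else t0 a := by
  simp [emb, bit, hab, hac]

include hab hbc in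
lemma emb_b (y : B3) : emb a b c t0 t1 y b = if y.2.1 = 1 then t1 b else t0 b := by
  simp [emb, bit, hab.symm, hbc]

include hac hbc in
lemma emb_c (y : B3) : emb a b c t0 t1 y c = if y.2.2 = 1 then t1 c else t0 c := by
  simp [emb, bit, hac.symm, hbc.symm]

lemma emb_o (y : B3) {i : Fin n} (h1 : i ≠ a) (h2 : i ≠ b) (h3 : i ≠ c) :
    emb a b c t0 t1 y i = t0 i := by
  simp [emb, bit, h1, h2, h3]

lemma bit_inj {α : Type*} {s t : α} (h : s ≠ t) {u v : Fin 2}
    (e : (if u = 1 then t else s) = (if v = 1 then t else s)) : u = v := by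
  fin_cases u <;> fin_cases v <;> simp_all

end Emb

end Pool.Agent.MP2725c9
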