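import Mathlib
import Pool.Agent.Lib.MP_2725c9_mp.H22.Bits

set_option autoImplicit false
open Matrix
open scoped ComplexOrder

namespace Pool.Agent.MP2725c9

section Fam

variable {n : ℕ} {d : Fin n → ℕ} {J : Type} [Fintype J]

/-- A family of nonnegative combinations of Ky Fan functionals. -/
noncomputable def kfam (S : J → Finset (Fin n)) (m : J → ℝ) (r : J → ℕ) (I : Finset (Fin n))
    (ρ : Matrix (Idx d I) (Idx d I) ℂ) : ℝ :=
  ∑ j, (if I = S j then m j else 0) * kf (r j) ρ

lemma kfam_continuous (S : J → Finset (Fin n)) (m : J → ℝ) (r : J → ℕ) (I : Finset (Fin n)) :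
    Continuous (kfam S m r I : Matrix (Idx d I) (Idx d I) ℂ → ℝ) := by
  unfold kfam
  exact continuous_finsetSum _ fun j _ => continuous_const.mul (kf_continuous (r j))

lemma kfam_convex (S : J → Finset (Fin n)) (m : J → ℝ) (hm : ∀ j, 0 ≤ m j) (r : J → ℕ)
    (I : Finset (Fin n)) :
    ConvexOn ℝ Set.univ (kfam S m r I : Matrix (Idx d I) (Idx d I) ℂ → ℝ) := by
  refine ⟨convex_univ, fun ρ _ σ _ α β hα hβ hαβ => ?_⟩
  unfold kfam
  simp only [smul_eq_mul, Finset.mul_sum]
  rw [← Finset.sum_add_distrib]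
  refine Finset.sum_le_sum fun j _ => ?_
  have h1 := (kf_convex (r j) (S := (Set.univ : Set (Matrix (Idx d I) (Idx d I) ℂ)))
    convex_univ).2 (Set.mem_univ ρ) (Set.mem_univ σ) hα hβ hαβ
  simp only [smul_eq_mul] at h1
  have h2 : 0 ≤ (if I = S j then m j else 0) := by
    split_ifs
    · exact hm j
    · exact le_rfl
  have := mul_le_mul_of_nonneg_left h1 h2
  linarith

lemma kfam_unitary (S : J → Finset (Fin n)) (m : J → ℝ) (r : J → ℕ) (I : Finset (Fin n))
    (U : Matrix (Idx d I) (Idx d I) ℂ) (hU : U ∈ Matrix.unitaryGroup (Idx d I) ℂ)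
    (ρ : Matrix (Idx d I) (Idx d I) ℂ) :
    kfam S m r I (U * ρ * star U) = kfam S m r I ρ := by
  unfold kfam
  refine Finset.sum_congr rfl fun j _ => ?_
  rw [kf_unitary (r j) hU ρ]

lemma objective_kfam (S : J → Finset (Fin n)) (m : J → ℝ) (r : J → ℕ)
    (τ : Matrix (Full d) (Full d) ℂ) :
    objective (kfam S m r) τ = ∑ j, m j * kf (r j) (reduced (S j) τ) := by
  unfold objective kfam
  rw [Finset.sum_comm]
  refine Finset.sum_congr rfl fun j _ => ?_
  rw [Finset.sum_eq_single (S j)]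
  · rw [if_pos rfl]
  · intro I _ hI
    rw [if_neg hI, zero_mul]
  · intro h
    exact absurd (Finset.mem_univ _) h

end Fam

lemma proj1_mem {κ : Type*} [Fintype κ] [DecidableEq κ] (u : κ) :
    (Matrix.single u u (1 : ℂ)) ∈ (projSet 1 : Set (Matrix κ κ ℂ)) := by
  refine ⟨?_, ?_, ?_⟩
  · rw [Matrix.IsHermitian, Matrix.conjTranspose_single, star_one]
  · rw [Matrix.single_mul_single_same, mul_one]
  · rw [Matrix.trace_single_eq_same]; simp

/-- The projector on two basis vectors. -/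
def projd {κ : Type*} [DecidableEq κ] (u v : κ) : Matrix κ κ ℂ :=
  Matrix.single u u (1 : ℂ) + Matrix.single v v (1 : ℂ)

lemma projd_mem {κ : Type*} [Fintype κ] [DecidableEq κ] {u v : κ} (h : u ≠ v) :
    projd u v ∈ (projSet 2 : Set (Matrix κ κ ℂ)) := by
  refine ⟨?_, ?_, ?_⟩
  · simp only [projd, Matrix.IsHermitian, Matrix.conjTranspose_add,
      Matrix.conjTranspose_single, star_one]
  · have e1 : (Matrix.single u u (1 : ℂ)) * (Matrix.single v v (1 : ℂ)) = 0 :=
      Matrix.single_mul_single_of_ne _ _ _ _ h _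
    have e2 : (Matrix.single v v (1 : ℂ)) * (Matrix.single u u (1 : ℂ)) = 0 :=
      Matrix.single_mul_single_of_ne _ _ _ _ h.symm _
    simp only [projd, Matrix.add_mul, Matrix.mul_add, e1, e2, Matrix.single_mul_single_same, mul_one]
    simp
  · simp only [projd, Matrix.trace_add, Matrix.trace_single_eq_same]
    norm_num

section Up

variable {n : ℕ} {d : Fin n → ℕ}

/-- The three sets and the singletons. -/
def fS (a b c : Fin n) : Fin 3 ⊕ Fin n → Finset (Fin n) :=
  Sum.elim ![{a, b}, {c}, {a, c}] (fun i => {i})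

/-- Coefficients. -/
noncomputable def fm : Fin 3 ⊕ Fin n → ℝ := Sum.elim ![2, 1, 1] (fun _ => 4)

/-- Ranks. -/
def fr (a b c : Fin n) : Fin 3 ⊕ Fin n → ℕ :=
  Sum.elim ![1, 1, 2] (fun i => if i = a ∨ i = b ∨ i = c then 2 else 1)

lemma fm_nonneg (j : Fin 3 ⊕ Fin n) : 0 ≤ fm j := by
  unfold fm
  rcases j with j | j
  · fin_cases j <;> norm_num
  · norm_num

lemma objective_eq (a b c : Fin n) (τ : Matrix (Full d) (Full d) ℂ) :
    objective (kfam (fS a b c) fm (fr a b c)) τ =
      2 * kf 1 (reduced {a, b} τ) + kf 1 (reduced {c} τ) + kf 2 (reduced {a, c} τ) +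
      ∑ i, 4 * kf (if i = a ∨ i = b ∨ i = c then 2 else 1) (reduced {i} τ) := by
  rw [objective_kfam, Fintype.sum_sum_type, Fin.sum_univ_three]
  simp only [fS, fm, fr, Sum.elim_inl, Sum.elim_inr]
  simp
  rfl

lemma restr_single {i : Fin n} (x : Full d) (y : Idx d {i}) :
    (fun j : {j // j ∈ ({i} : Finset (Fin n))} => x j.1) = y ↔
      x i = y ⟨i, Finset.mem_singleton_self i⟩ := by
  constructor
  · intro h
    rw [← h]
  · intro h
    funext ⟨j, hj⟩
    obtain rfl := Finset.mem_singleton.mp hj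
    exact h

variable (a b c : Fin n)

lemma pen_bound (hd : ∀ i, 1 ≤ d i) (hda : 2 ≤ d a) (hdb : 2 ≤ d b) (hdc : 2 ≤ d c)
    (W : (i : Fin n) → Matrix (Fin (d i)) (Fin (d i)) ℂ)
    (hW : ∀ i, W i ∈ Matrix.unitaryGroup (Fin (d i)) ℂ)
    (q : Full d → ℝ) (i : Fin n) :
    ∃ t0 t1 : Fin (d i), ((i = a ∨ i = b ∨ i = c) → t0 ≠ t1) ∧
      kf (if i = a ∨ i = b ∨ i = c then 2 else 1) (reduced {i}
        (tens W * Matrix.diagonal (fun x => ((q x : ℝ) : ℂ)) * star (tens W))) ≤
      ∑ x : Full d, if (x i = t0 ∨ ((i = a ∨ i = b ∨ i = c) ∧ x i = t1)) then q x else 0 := by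
  have : Nonempty (Idx d {i}) := ⟨fun j => ⟨0, hd j.1⟩⟩
  by_cases hi : i = a ∨ i = b ∨ i = c
  · rw [if_pos hi]
    have hdi : 2 ≤ d i := by
      rcases hi with h | h | h <;> subst h <;> assumption
    have hdj : ∀ j : {j // j ∈ ({i} : Finset (Fin n))}, 2 ≤ d j.1 := fun j => by
      rw [Finset.mem_singleton.mp j.2]; exact hdi
    have hne : (fun j => ⟨0, hd j.1⟩ : Idx d {i}) ≠ (fun j => ⟨1, hdj j⟩) := by
      intro h
      have := congrFun h ⟨i, Finset.mem_singleton_self i⟩
      simp at this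
    obtain ⟨y, y', hyy, hy⟩ := kf_two_classical W hW q {i}
      (Fintype.one_lt_card_iff.mpr ⟨_, _, hne⟩) ⟨_, projd_mem hne⟩
    refine ⟨y ⟨i, Finset.mem_singleton_self i⟩, y' ⟨i, Finset.mem_singleton_self i⟩,
      fun _ h => hyy ?_, hy.trans (le_of_eq ?_)⟩
    · funext ⟨j, hj⟩
      obtain rfl := Finset.mem_singleton.mp hj
      exact h
    · unfold marg
      rw [← Finset.sum_add_distrib]
      refine Finset.sum_congr rfl fun x _ => ?_
      simp only [restr_single, hi, true_and]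
      have hyi : y ⟨i, Finset.mem_singleton_self i⟩ ≠ y' ⟨i, Finset.mem_singleton_self i⟩ := by
        intro h
        apply hyy
        funext ⟨j, hj⟩
        obtain rfl := Finset.mem_singleton.mp hj
        exact h
      by_cases h1 : x i = y ⟨i, Finset.mem_singleton_self i⟩
      · have h2 : ¬ x i = y' ⟨i, Finset.mem_singleton_self i⟩ := fun h => hyi (h1.symm.trans h)
        rw [if_pos h1, if_neg h2, if_pos (Or.inl h1), add_zero]
      · by_cases h2 : x i = y' ⟨i, Finset.mem_singleton_self i⟩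
        · rw [if_neg h1, if_pos h2, if_pos (Or.inr h2), zero_add]
        · rw [if_neg h1, if_neg h2, if_neg (fun h => h.elim h1 h2), add_zero]
  · rw [if_neg hi]
    obtain ⟨y, hy⟩ := kf_one_classical W hW q {i} ⟨_, proj1_mem (fun j => ⟨0, hd j.1⟩)⟩
    refine ⟨y ⟨i, Finset.mem_singleton_self i⟩, y ⟨i, Finset.mem_singleton_self i⟩,
      fun h => absurd h hi, hy.trans (le_of_eq ?_)⟩
    unfold marg
    refine Finset.sum_congr rfl fun x _ => ?_
    simp only [restr_single, hi, false_and, or_false]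

end Up

end Pool.Agent.MP2725c9
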