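import Mathlib
import Pool.Agent.Lib.MP_2725c9_mp.H22.NegUp

set_option autoImplicit false
open Matrix
open scoped ComplexOrder

namespace Pool.Agent.MP2725c9

variable {n : ℕ} {d : Fin n → ℕ}

/-- Restriction of a basis vector to the factors in `I`. -/
def rx (I : Finset (Fin n)) (x : Full d) : Idx d I := fun i => x i.1

lemma rx_eq_iff (I : Finset (Fin n)) (x x' : Full d) :
    rx I x = rx I x' ↔ ∀ i ∈ I, x i = x' i := by
  constructor
  · intro h i hi
    exact congrFun h ⟨i, hi⟩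
  · intro h
    funext i
    exact h i.1 i.2

lemma ind_le {P Q : Prop} [Decidable P] [Decidable Q] (h : P → Q) :
    (if P then (1 : ℝ) else 0) ≤ (if Q then 1 else 0) := by
  by_cases hP : P
  · rw [if_pos hP, if_pos (h hP)]
  · rw [if_neg hP]
    split_ifs <;> norm_num

variable {a b c : Fin n}

lemma emb_inj (hab : a ≠ b) (hac : a ≠ c) (hbc : b ≠ c) (t0 t1 : (i : Fin n) → Fin (d i))
    (ha : t0 a ≠ t1 a) (hb : t0 b ≠ t1 b) (hc : t0 c ≠ t1 c) :
    Function.Injective (emb a b c t0 t1) := by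
  intro y y' h
  have h1 := congrFun h a
  have h2 := congrFun h b
  have h3 := congrFun h c
  rw [emb_a hab hac, emb_a hab hac] at h1
  rw [emb_b hab hbc, emb_b hab hbc] at h2
  rw [emb_c hac hbc, emb_c hac hbc] at h3
  exact Prod.ext (bit_inj ha h1) (Prod.ext (bit_inj hb h2) (bit_inj hc h3))

/-- The vectors with all entries among the chosen levels are the embedded ones. -/
lemma mem_emb (hab : a ≠ b) (hac : a ≠ c) (hbc : b ≠ c) (t0 t1 : (i : Fin n) → Fin (d i))
    (x : Full d) (hx : ∀ i, x i = t0 i ∨ ((i = a ∨ i = b ∨ i = c) ∧ x i = t1 i)) :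
    ∃ y, emb a b c t0 t1 y = x := by
  refine ⟨(if x a = t1 a then 1 else 0, if x b = t1 b then 1 else 0,
    if x c = t1 c then 1 else 0), ?_⟩
  funext i
  by_cases h1 : i = a
  · subst h1
    rw [emb_a hab hac]
    by_cases h : x i = t1 i
    · simp [h]
    · have := (hx i).resolve_right (fun h' => h h'.2)
      simp only [h, if_false]
      simp [this]
  · by_cases h2 : i = b
    · subst h2
      rw [emb_b hab hbc]
      by_cases h : x i = t1 i
      · simp [h]
      · have := (hx i).resolve_right (fun h' => h h'.2)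
        simp only [h, if_false]
        simp [this]
    · by_cases h3 : i = c
      · subst h3
        rw [emb_c hac hbc]
        by_cases h : x i = t1 i
        · simp [h]
        · have := (hx i).resolve_right (fun h' => h h'.2)
          simp only [h, if_false]
          simp [this]
      · rw [emb_o _ _ _ h1 h2 h3]
        have := (hx i).resolve_right (fun h' => by
          rcases h'.1 with h | h | h
          · exact h1 h
          · exact h2 h
          · exact h3 h)
        exact this.symm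

lemma exists_u (hab : a ≠ b) (hac : a ≠ c) (hbc : b ≠ c) (t0 t1 : (i : Fin n) → Fin (d i))
    (ha : t0 a ≠ t1 a) (hb : t0 b ≠ t1 b) (y1 : Idx d {a, b}) :
    ∃ u : Fin 2 × Fin 2, ∀ y, rx {a, b} (emb a b c t0 t1 y) = y1 → (y.1, y.2.1) = u := by
  by_cases h : ∃ y, rx {a, b} (emb a b c t0 t1 y) = y1
  · obtain ⟨z, hz⟩ := h
    refine ⟨(z.1, z.2.1), fun y hy => ?_⟩
    rw [← hz, rx_eq_iff] at hy
    have h1 := hy a (by simp)
    have h2 := hy b (by simp)
    rw [emb_a hab hac, emb_a hab hac] at h1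
    rw [emb_b hab hbc, emb_b hab hbc] at h2
    exact Prod.ext (bit_inj ha h1) (bit_inj hb h2)
  · exact ⟨(0, 0), fun y hy => absurd ⟨y, hy⟩ h⟩

lemma exists_v (hac : a ≠ c) (hbc : b ≠ c) (t0 t1 : (i : Fin n) → Fin (d i))
    (hc : t0 c ≠ t1 c) (y2 : Idx d {c}) :
    ∃ v : Fin 2, ∀ y, rx {c} (emb a b c t0 t1 y) = y2 → y.2.2 = v := by
  by_cases h : ∃ y, rx {c} (emb a b c t0 t1 y) = y2
  · obtain ⟨z, hz⟩ := h
    refine ⟨z.2.2, fun y hy => ?_⟩
    rw [← hz, rx_eq_iff] at hy
    have h1 := hy c (by simp)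
    rw [emb_c hac hbc, emb_c hac hbc] at h1
    exact bit_inj hc h1
  · exact ⟨0, fun y hy => absurd ⟨y, hy⟩ h⟩

lemma rx_ac (hab : a ≠ b) (hac : a ≠ c) (hbc : b ≠ c) (t0 t1 : (i : Fin n) → Fin (d i))
    (ha : t0 a ≠ t1 a) (hc : t0 c ≠ t1 c) (y z : B3) :
    rx {a, c} (emb a b c t0 t1 y) = rx {a, c} (emb a b c t0 t1 z) ↔
      (y.1, y.2.2) = (z.1, z.2.2) := by
  constructor
  · intro h
    rw [rx_eq_iff] at h
    have h1 := h a (by simp)
    have h2 := h c (by simp)
    rw [emb_a hab hac, emb_a hab hac] at h1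
    rw [emb_c hac hbc, emb_c hac hbc] at h2
    exact Prod.ext (bit_inj ha h1) (bit_inj hc h2)
  · intro h
    rw [Prod.mk.injEq] at h
    rw [rx_eq_iff]
    intro i hi
    rw [Finset.mem_insert, Finset.mem_singleton] at hi
    rcases hi with rfl | rfl
    · rw [emb_a hab hac, emb_a hab hac, h.1]
    · rw [emb_c hac hbc, emb_c hac hbc, h.2]

lemma exists_w (hab : a ≠ b) (hac : a ≠ c) (hbc : b ≠ c) (t0 t1 : (i : Fin n) → Fin (d i))
    (ha : t0 a ≠ t1 a) (hc : t0 c ≠ t1 c) (y3 y3' : Idx d {a, c}) (hy : y3 ≠ y3') :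
    ∃ w w' : Fin 2 × Fin 2, w ≠ w' ∧
      (∀ y, rx {a, c} (emb a b c t0 t1 y) = y3 → (y.1, y.2.2) = w) ∧
      (∀ y, rx {a, c} (emb a b c t0 t1 y) = y3' → (y.1, y.2.2) = w') := by
  have key : ∀ y z, rx {a, c} (emb a b c t0 t1 y) = rx {a, c} (emb a b c t0 t1 z) →
      (y.1, y.2.2) = (z.1, z.2.2) := fun y z h => (rx_ac hab hac hbc t0 t1 ha hc y z).mp h
  by_cases h : ∃ y, rx {a, c} (emb a b c t0 t1 y) = y3
  · obtain ⟨z, hz⟩ := h
    by_cases h' : ∃ y, rx {a, c} (emb a b c t0 t1 y) = y3'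
    · obtain ⟨z', hz'⟩ := h'
      refine ⟨(z.1, z.2.2), (z'.1, z'.2.2), fun e => hy ?_, fun y h => key _ _ (h.trans hz.symm),
        fun y h => key _ _ (h.trans hz'.symm)⟩
      rw [← hz, ← hz']
      exact (rx_ac hab hac hbc t0 t1 ha hc z z').mpr e
    · obtain ⟨w', hw'⟩ := exists_ne ((z.1, z.2.2) : Fin 2 × Fin 2)
      exact ⟨(z.1, z.2.2), w', hw'.symm, fun y h => key _ _ (h.trans hz.symm),
        fun y hh => absurd ⟨y, hh⟩ h'⟩
  · by_cases h' : ∃ y, rx {a, c} (emb a b c t0 t1 y) = y3'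
    · obtain ⟨z', hz'⟩ := h'
      obtain ⟨w, hw⟩ := exists_ne ((z'.1, z'.2.2) : Fin 2 × Fin 2)
      exact ⟨w, (z'.1, z'.2.2), hw, fun y hh => absurd ⟨y, hh⟩ h,
        fun y h => key _ _ (h.trans hz'.symm)⟩
    · exact ⟨(0, 0), (1, 1), by decide, fun y hh => absurd ⟨y, hh⟩ h,
        fun y hh => absurd ⟨y, hh⟩ h'⟩

/-- Every classical state with all weights at most `1/4` has value at most `5/2 + 4 n`. -/
lemma classical_le (hab : a ≠ b) (hac : a ≠ c) (hbc : b ≠ c) (hd : ∀ i, 1 ≤ d i)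
    (hda : 2 ≤ d a) (hdb : 2 ≤ d b) (hdc : 2 ≤ d c)
    (W : (i : Fin n) → Matrix (Fin (d i)) (Fin (d i)) ℂ)
    (hW : ∀ i, W i ∈ Matrix.unitaryGroup (Fin (d i)) ℂ)
    (q : Full d → ℝ) (h0 : ∀ x, 0 ≤ q x) (hc : ∀ x, q x ≤ 1 / 4) (h1 : ∑ x, q x = 1) :
    objective (kfam (fS a b c) fm (fr a b c))
      (tens W * Matrix.diagonal (fun x => ((q x : ℝ) : ℂ)) * star (tens W)) ≤ 5 / 2 + 4 * n := by
  rw [objective_eq]
  set τ := tens W * Matrix.diagonal (fun x => ((q x : ℝ) : ℂ)) * star (tens W) with hτ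
  have hNe : ∀ I : Finset (Fin n), Nonempty (Idx d I) := fun I => ⟨fun j => ⟨0, hd j.1⟩⟩
  have := hNe {a, b}
  have := hNe {c}
  have hac2 : (fun j => ⟨0, hd j.1⟩ : Idx d {a, c}) ≠
      (fun j => ⟨1, by
        have := j.2
        rw [Finset.mem_insert, Finset.mem_singleton] at this
        rcases this with h | h
        · rw [h]; exact hda
        · rw [h]; exact hdc⟩) := by
    intro h
    have := congrFun h ⟨a, by simp⟩
    simp at this
  obtain ⟨y1, hy1⟩ := kf_one_classical W hW q {a, b} ⟨_, proj1_mem (fun j => ⟨0, hd j.1⟩)⟩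
  obtain ⟨y2, hy2⟩ := kf_one_classical W hW q {c} ⟨_, proj1_mem (fun j => ⟨0, hd j.1⟩)⟩
  obtain ⟨y3, y3', hy33, hy3⟩ := kf_two_classical W hW q {a, c}
    (Fintype.one_lt_card_iff.mpr ⟨_, _, hac2⟩) ⟨_, projd_mem hac2⟩
  choose t0 t1 ht hpen using pen_bound a b c hd hda hdb hdc W hW q
  rw [← hτ] at hy1 hy2 hy3
  simp only [← hτ] at hpen
  have hta := ht a (Or.inl rfl)
  have htb := ht b (Or.inr (Or.inl rfl))
  have htc := ht c (Or.inr (Or.inr rfl))
  -- the weight
  set wt : Full d → ℝ := fun x => 2 * (if rx {a, b} x = y1 then 1 else 0) +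
    (if rx {c} x = y2 then 1 else 0) + (if rx {a, c} x = y3 then 1 else 0) +
    (if rx {a, c} x = y3' then 1 else 0) with hwt
  set g : Fin n → Full d → ℝ := fun i x =>
    if (x i = t0 i ∨ ((i = a ∨ i = b ∨ i = c) ∧ x i = t1 i)) then 1 else 0 with hg
  have hg01 : ∀ i x, g i x ≤ 1 := fun i x => by
    simp only [hg]; split_ifs <;> norm_num
  have hwt4 : ∀ x, wt x ≤ 4 := by
    intro x
    simp only [hwt]
    have e1 : (if rx {a, b} x = y1 then (1 : ℝ) else 0) ≤ 1 := by split_ifs <;> norm_num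
    have e2 : (if rx {c} x = y2 then (1 : ℝ) else 0) ≤ 1 := by split_ifs <;> norm_num
    have e3 : (if rx {a, c} x = y3 then (1 : ℝ) else 0) +
        (if rx {a, c} x = y3' then 1 else 0) ≤ 1 := by
      by_cases h3 : rx {a, c} x = y3
      · have h3' : ¬ rx {a, c} x = y3' := fun h => hy33 (h3.symm.trans h)
        rw [if_pos h3, if_neg h3']; norm_num
      · rw [if_neg h3]; split_ifs <;> norm_num
    linarith
  have hwt0 : ∀ x, 0 ≤ wt x := by
    intro x
    simp only [hwt]
    positivity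
  have hmarg : ∀ (I : Finset (Fin n)) (y : Idx d I), marg I q y =
      ∑ x, q x * (if rx I x = y then 1 else 0) := by
    intro I y
    unfold marg
    refine Finset.sum_congr rfl fun x _ => ?_
    have : (fun i : {i // i ∈ I} => x i.1) = rx I x := rfl
    rw [this]
    split_ifs <;> ring
  have hA : 2 * kf 1 (reduced {a, b} τ) + kf 1 (reduced {c} τ) + kf 2 (reduced {a, c} τ) ≤
      ∑ x, q x * wt x := by
    have e : ∑ x, q x * wt x = 2 * marg {a, b} q y1 + marg {c} q y2 +
        (marg {a, c} q y3 + marg {a, c} q y3') := by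
      rw [hmarg, hmarg, hmarg, hmarg, Finset.mul_sum, ← Finset.sum_add_distrib,
        ← Finset.sum_add_distrib, ← Finset.sum_add_distrib]
      refine Finset.sum_congr rfl fun x _ => ?_
      simp only [hwt]
      ring
    rw [e]
    linarith
  have hB : ∑ i, 4 * kf (if i = a ∨ i = b ∨ i = c then 2 else 1) (reduced {i} τ) ≤
      ∑ x, q x * (4 * ∑ i, g i x) := by
    have e : ∑ x, q x * (4 * ∑ i, g i x) = ∑ i, 4 * ∑ x, q x * g i x := by
      simp only [Finset.mul_sum]
      rw [Finset.sum_comm]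
      refine Finset.sum_congr rfl fun i _ => Finset.sum_congr rfl fun x _ => ?_
      ring
    rw [e]
    refine Finset.sum_le_sum fun i _ => ?_
    have h := hpen i
    have e2 : ∑ x : Full d, (if (x i = t0 i ∨ ((i = a ∨ i = b ∨ i = c) ∧ x i = t1 i))
        then q x else 0) = ∑ x, q x * g i x := by
      refine Finset.sum_congr rfl fun x _ => ?_
      simp only [hg]
      split_ifs <;> ring
    rw [e2] at h
    linarith
  classical
  have hpt : ∀ x, q x * wt x + q x * (4 * ∑ i, g i x) ≤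
      q x * (4 * n) + (if (∀ i, x i = t0 i ∨ ((i = a ∨ i = b ∨ i = c) ∧ x i = t1 i))
        then q x * wt x else 0) := by
    intro x
    by_cases hx : ∀ i, x i = t0 i ∨ ((i = a ∨ i = b ∨ i = c) ∧ x i = t1 i)
    · rw [if_pos hx]
      have : ∑ i, g i x = n := by
        rw [Finset.sum_congr rfl (fun i _ => (show g i x = 1 by
          simp only [hg]; rw [if_pos (hx i)]))]
        simp
      rw [this]
      linarith
    · rw [if_neg hx]
      push Not at hx
      obtain ⟨i0, hi0⟩ := hx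
      have h2 : ∑ i, g i x ≤ n - 1 := by
        have h3 : ∑ i, g i x = g i0 x + ∑ i ∈ Finset.univ.erase i0, g i x :=
          (Finset.add_sum_erase _ _ (Finset.mem_univ i0)).symm
        have h4 : ∑ i ∈ Finset.univ.erase i0, g i x ≤ ∑ i ∈ Finset.univ.erase i0, (1 : ℝ) :=
          Finset.sum_le_sum fun i _ => hg01 i x
        have h5 : ∑ i ∈ Finset.univ.erase i0, (1 : ℝ) = n - 1 := by
          rw [Finset.sum_const, Finset.card_erase_of_mem (Finset.mem_univ i0), Finset.card_univ,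
            Fintype.card_fin, nsmul_eq_mul, mul_one]
          have : 1 ≤ n := by have := i0.2; omega
          push_cast [Nat.cast_sub this]
          ring
        have h6 : g i0 x = 0 := by
          simp only [hg]
          rw [if_neg]
          rintro (h | ⟨h, h'⟩)
          · exact hi0.1 h
          · exact hi0.2 h h'
        rw [h3, h6]
        linarith
      have h7 := hwt4 x
      have h8 := h0 x
      nlinarith
  have hC : ∑ x, (if (∀ i, x i = t0 i ∨ ((i = a ∨ i = b ∨ i = c) ∧ x i = t1 i))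
        then q x * wt x else 0) ≤ 5 / 2 := by
    have hinj := emb_inj hab hac hbc t0 t1 hta htb htc
    rw [← Finset.sum_filter]
    have e1 : ∑ x ∈ Finset.univ.filter (fun x : Full d =>
        ∀ i, x i = t0 i ∨ ((i = a ∨ i = b ∨ i = c) ∧ x i = t1 i)), q x * wt x ≤
        ∑ x ∈ Finset.univ.image (emb a b c t0 t1), q x * wt x := by
      refine Finset.sum_le_sum_of_subset_of_nonneg ?_ fun x _ _ => mul_nonneg (h0 x) (hwt0 x)
      intro x hx
      rw [Finset.mem_filter] at hx
      obtain ⟨y, hy⟩ := mem_emb hab hac hbc t0 t1 x hx.2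
      exact Finset.mem_image.mpr ⟨y, Finset.mem_univ _, hy⟩
    rw [Finset.sum_image (fun y _ z _ h => hinj h)] at e1
    refine e1.trans ?_
    obtain ⟨u, hu⟩ := exists_u (c := c) hab hac hbc t0 t1 hta htb y1
    obtain ⟨v, hv⟩ := exists_v (a := a) (b := b) hac hbc t0 t1 htc y2
    obtain ⟨w, w', hww, hw, hw'⟩ := exists_w (b := b) hab hac hbc t0 t1 hta htc y3 y3' hy33
    have hQ1 : ∑ y, q (emb a b c t0 t1 y) ≤ 1 := by
      rw [← h1, ← Finset.sum_image (f := q) (fun y _ z _ h => hinj h)]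
      exact Finset.sum_le_sum_of_subset_of_nonneg (Finset.subset_univ _) fun x _ _ => h0 x
    refine le_trans (Finset.sum_le_sum fun y _ => ?_)
      (wtN_sum_le (fun y => q (emb a b c t0 t1 y)) (fun y => h0 _) (fun y => hc _) hQ1 u v w w' hww)
    refine mul_le_mul_of_nonneg_left ?_ (h0 _)
    simp only [hwt, wtN]
    push_cast
    have i1 := ind_le (hu y)
    have i2 := ind_le (hv y)
    have i3 := ind_le (hw y)
    have i4 := ind_le (hw' y)
    linarith
  have hD : ∑ x, (q x * wt x + q x * (4 * ∑ i, g i x)) ≤ 4 * n + 5 / 2 := by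
    refine (Finset.sum_le_sum fun x _ => hpt x).trans ?_
    rw [Finset.sum_add_distrib, ← Finset.sum_mul, h1]
    linarith
  rw [Finset.sum_add_distrib] at hD
  linarith

end Pool.Agent.MP2725c9
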