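import Mathlib
import Pool.Agent.Lib.MP_2725c9_mp.H22.NegUp2

set_option autoImplicit false
open Matrix
open scoped ComplexOrder

namespace Pool.Agent.MP2725c9

variable {κ : Type*} [Fintype κ] [DecidableEq κ]

lemma spectral_form {τ : Matrix κ κ ℂ} (h : τ.IsHermitian) :
    ∃ U ∈ Matrix.unitaryGroup κ ℂ,
      τ = U * Matrix.diagonal (fun x => ((h.eigenvalues x : ℝ) : ℂ)) * star U := by
  refine ⟨h.eigenvectorUnitary, h.eigenvectorUnitary.2, ?_⟩
  conv_lhs => rw [h.spectral_theorem, Unitary.conjStarAlgAut_apply]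
  rfl

lemma maj_quarter {x : κ → ℝ} (h0 : ∀ i, 0 ≤ x i) (hc : ∀ i, x i ≤ 1 / 4) (h1 : ∑ i, x i = 1)
    {s : Finset κ} (hs : s.card = 4) : Majorized x (fun i => if i ∈ s then 1 / 4 else 0) := by
  have hsum : ∀ t : Finset κ, s ⊆ t → ∑ i ∈ t, (if i ∈ s then (1 / 4 : ℝ) else 0) = 1 := by
    intro t ht
    rw [← Finset.sum_filter, Finset.filter_mem_eq_inter, Finset.inter_eq_right.mpr ht,
      Finset.sum_const, hs]
    norm_num
  refine ⟨by rw [h1, hsum Finset.univ (Finset.subset_univ s)], fun t => ?_⟩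
  rcases le_total t.card 4 with h | h
  · obtain ⟨u, hu1, hu2⟩ := Finset.exists_subset_card_eq (s := s) (n := t.card) (by omega)
    refine ⟨u, hu2, ?_⟩
    have e : ∑ i ∈ u, (if i ∈ s then (1 / 4 : ℝ) else 0) = ∑ i ∈ u, (1 / 4 : ℝ) :=
      Finset.sum_congr rfl fun i hi => if_pos (hu1 hi)
    rw [e, Finset.sum_const, hu2, ← Finset.sum_const]
    exact Finset.sum_le_sum fun i _ => hc i
  · obtain ⟨u, hu1, hu2⟩ := Finset.exists_superset_card_eq (s := s) (n := t.card) (by omega)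
      (t.card_le_univ)
    refine ⟨u, hu2, ?_⟩
    rw [hsum u hu1, ← h1]
    exact Finset.sum_le_sum_of_subset_of_nonneg (Finset.subset_univ t) fun i _ _ => h0 i

lemma feasible_proj {P : Matrix κ κ ℂ} (hP : P ∈ (projSet 4 : Set (Matrix κ κ ℂ)))
    {s : Finset κ} (hs : s.card = 4) :
    Feasible (fun x => if x ∈ s then 1 / 4 else 0) ((1 / 4 : ℂ) • P) := by
  obtain ⟨h1, h2, h3⟩ := hP
  have hpsd : P.PosSemidef := by
    have := Matrix.posSemidef_conjTranspose_mul_self P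
    rwa [h1.eq, h2] at this
  have hq : (0 : ℂ) ≤ 1 / 4 := by
    rw [show (1 / 4 : ℂ) = ((1 / 4 : ℝ) : ℂ) by push_cast; ring]
    exact_mod_cast (by norm_num : (0 : ℝ) ≤ 1 / 4)
  have hσ : ((1 / 4 : ℂ) • P).PosSemidef := hpsd.smul hq
  have htr : ((1 / 4 : ℂ) • P).trace = 1 := by
    rw [Matrix.trace_smul, h3, smul_eq_mul]; norm_num
  refine ⟨⟨hσ, htr⟩, hσ.isHermitian, ?_⟩
  have hsq : ((1 / 4 : ℂ) • P) * ((1 / 4 : ℂ) • P) = (1 / 4 : ℂ) • ((1 / 4 : ℂ) • P) := by
    rw [Matrix.smul_mul, Matrix.mul_smul, h2]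
  have hev : ∀ i, hσ.isHermitian.eigenvalues i * (hσ.isHermitian.eigenvalues i - 1 / 4) = 0 := by
    intro i
    set lam := hσ.isHermitian.eigenvalues i with hlam
    have hv := hσ.isHermitian.mulVec_eigenvectorBasis i
    set v : κ → ℂ := ⇑(hσ.isHermitian.eigenvectorBasis i) with hvdef
    have hv0 : v ≠ 0 := by
      intro h
      have h5 := (hσ.isHermitian.eigenvectorBasis).orthonormal.ne_zero i
      apply h5
      ext j
      exact congrFun h j
    have e1 : ((1 / 4 : ℂ) • P * ((1 / 4 : ℂ) • P)) *ᵥ v = lam • (lam • v) := by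
      rw [← Matrix.mulVec_mulVec, hv, Matrix.mulVec_smul, hv]
    have e2 : ((1 / 4 : ℂ) • ((1 / 4 : ℂ) • P)) *ᵥ v = (1 / 4 : ℂ) • (lam • v) := by
      rw [Matrix.smul_mulVec, hv]
    rw [hsq, e2] at e1
    obtain ⟨j, hj⟩ := Function.ne_iff.mp hv0
    have e3 := congrFun e1 j
    simp only [Pi.smul_apply, smul_eq_mul, Complex.real_smul] at e3
    have hj' : v j ≠ 0 := hj
    have e4 : (lam : ℂ) * ((lam : ℂ) - 1 / 4) * v j = 0 := by linear_combination -e3
    have e5 := (mul_eq_zero.mp e4).resolve_right hj'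
    have e6 : ((lam * (lam - 1 / 4) : ℝ) : ℂ) = 0 := by push_cast; exact e5
    exact_mod_cast e6
  refine maj_quarter (fun i => hσ.eigenvalues_nonneg i) (fun i => ?_) ?_ hs
  · rcases mul_eq_zero.mp (hev i) with h | h
    · rw [h]; norm_num
    · linarith
  · have := hσ.isHermitian.trace_eq_sum_eigenvalues
    rw [htr] at this
    have h2 : ((∑ i, hσ.isHermitian.eigenvalues i : ℝ) : ℂ) = ((1 : ℝ) : ℂ) := by
      push_cast
      exact this.symm
    exact_mod_cast h2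

/-- The weights of a feasible classical state for the spectrum with four entries `1/4`. -/
lemma feasible_bounds {s : Finset κ} {τ : Matrix κ κ ℂ}
    (hτ : Feasible (fun x => if x ∈ s then 1 / 4 else 0) τ)
    {V : Matrix κ κ ℂ} (hV : V ∈ Matrix.unitaryGroup κ ℂ) {q : κ → ℝ}
    (h : τ = V * Matrix.diagonal (fun x => ((q x : ℝ) : ℂ)) * star V) :
    (∀ x, 0 ≤ q x) ∧ (∀ x, q x ≤ 1 / 4) ∧ ∑ x, q x = 1 := by
  obtain ⟨⟨hpsd, htr⟩, hH, hmaj⟩ := hτ
  obtain ⟨U, hU, hUτ⟩ := spectral_form hH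
  refine spec_bounds hU hV (hUτ.symm.trans h) (c := 1 / 4) (fun x => ?_) (fun x => ?_) ?_
  · exact hpsd.eigenvalues_nonneg x
  · obtain ⟨t, ht1, ht2⟩ := hmaj.2 {x}
    rw [Finset.card_singleton] at ht1
    obtain ⟨y, rfl⟩ := Finset.card_eq_one.mp ht1
    rw [Finset.sum_singleton, Finset.sum_singleton] at ht2
    refine ht2.trans ?_
    split_ifs <;> norm_num
  · have := hH.trace_eq_sum_eigenvalues
    rw [htr] at this
    have h2 : ((∑ i, hH.eigenvalues i : ℝ) : ℂ) = ((1 : ℝ) : ℂ) := by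
      push_cast
      exact this.symm
    exact_mod_cast h2

end Pool.Agent.MP2725c9
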