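import Mathlib
import Pool.Agent.Lib.MP_2725c9_mp.H22.Spc

set_option autoImplicit false
open Matrix
open scoped ComplexOrder

namespace Pool.Agent.MP2725c9

variable {κ : Type*} [Fintype κ] [DecidableEq κ]

/-- The rearrangements of a vector. -/
def rearr (y : κ → ℝ) : Set (κ → ℝ) := Set.range fun σ : Equiv.Perm κ => fun i => y (σ i)

omit [DecidableEq κ] in
lemma Majorized.trans {x y z : κ → ℝ} (h1 : Majorized x y) (h2 : Majorized y z) :
    Majorized x z := by
  refine ⟨h1.1.trans h2.1, fun s => ?_⟩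
  obtain ⟨t, ht1, ht2⟩ := h1.2 s
  obtain ⟨u, hu1, hu2⟩ := h2.2 t
  exact ⟨u, hu1.trans ht1, ht2.trans hu2⟩

omit [DecidableEq κ] in
lemma linear_le {x y : κ → ℝ} (h : x ∈ convexHull ℝ (rearr y)) (c : κ → ℝ) :
    ∃ σ : Equiv.Perm κ, ∑ i, c i * x i ≤ ∑ i, c i * y (σ i) := by
  have hlin : ConvexOn ℝ Set.univ (fun z : κ → ℝ => ∑ i, c i * z i) := by
    refine ⟨convex_univ, fun z _ w _ a b _ _ _ => le_of_eq ?_⟩
    simp only [Pi.add_apply, Pi.smul_apply, smul_eq_mul, Finset.mul_sum]
    rw [← Finset.sum_add_distrib]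
    refine Finset.sum_congr rfl fun i _ => ?_
    ring
  obtain ⟨_, ⟨σ, rfl⟩, hσ⟩ := hlin.exists_ge_of_mem_convexHull (Set.subset_univ _) h
  exact ⟨σ, hσ⟩

lemma maj_of_hull {x y : κ → ℝ} (h : x ∈ convexHull ℝ (rearr y)) : Majorized x y := by
  refine ⟨le_antisymm ?_ ?_, fun s => ?_⟩
  · obtain ⟨σ, hσ⟩ := linear_le h (fun _ => 1)
    simp only [one_mul] at hσ
    rwa [Equiv.sum_comp σ y] at hσ
  · obtain ⟨σ, hσ⟩ := linear_le h (fun _ => -1)
    simp only [neg_one_mul, Finset.sum_neg_distrib] at hσ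
    rw [Equiv.sum_comp σ y] at hσ
    linarith
  · obtain ⟨σ, hσ⟩ := linear_le h (fun i => if i ∈ s then 1 else 0)
    refine ⟨s.map σ.toEmbedding, Finset.card_map _, ?_⟩
    simp only [ite_mul, one_mul, zero_mul] at hσ
    rw [← Finset.sum_filter, ← Finset.sum_filter, Finset.filter_univ_mem] at hσ
    rw [Finset.sum_map]
    exact hσ

lemma hull_of_ds {S : Matrix κ κ ℝ} (hS : S ∈ doublyStochastic ℝ κ) (y : κ → ℝ) :
    (fun x => ∑ z, y z * S x z) ∈ convexHull ℝ (rearr y) := by
  obtain ⟨w, hw0, hw1, hw⟩ := exists_eq_sum_perm_of_mem_doublyStochastic hS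
  have h : (fun x => ∑ z, y z * S x z) = ∑ σ : Equiv.Perm κ, w σ • (fun i => y (σ i)) := by
    funext x
    rw [← hw]
    simp only [Finset.sum_apply, Pi.smul_apply, smul_eq_mul, Matrix.sum_apply, Matrix.smul_apply,
      Finset.mul_sum]
    rw [Finset.sum_comm]
    refine Finset.sum_congr rfl fun σ _ => ?_
    rw [Finset.sum_eq_single (σ x)]
    · simp [Equiv.Perm.permMatrix, PEquiv.toMatrix_apply, Equiv.toPEquiv_apply, mul_comm]
    · intro z _ hz
      have : ¬ σ x = z := fun h => hz h.symm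
      simp [Equiv.Perm.permMatrix, PEquiv.toMatrix_apply, Equiv.toPEquiv_apply, this]
    · intro h
      exact absurd (Finset.mem_univ _) h
  rw [h]
  exact (convex_convexHull ℝ _).sum_mem (fun σ _ => hw0 σ) hw1
    (fun σ _ => subset_convexHull ℝ _ ⟨σ, rfl⟩)

/-- The diagonal of a matrix with weights `r`, in any basis, is majorized by `r`. -/
lemma maj_of_unitary {U V : Matrix κ κ ℂ} (hU : U ∈ Matrix.unitaryGroup κ ℂ)
    (hV : V ∈ Matrix.unitaryGroup κ ℂ) {r q : κ → ℝ}
    (h : ∀ x, q x = ∑ z, r z * ‖(star V * U) x z‖ ^ 2) : Majorized q r := by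
  have hT1 : (star V * U) * star (star V * U) = 1 := by
    rw [StarMul.star_mul, star_star]
    calc star V * U * (star U * V) = star V * (U * star U) * V := by simp only [Matrix.mul_assoc]
      _ = 1 := by rw [Matrix.mem_unitaryGroup_iff.mp hU, Matrix.mul_one,
        Matrix.mem_unitaryGroup_iff'.mp hV]
  have hT2 : star (star V * U) * star (star (star V * U)) = 1 := by
    rw [star_star, StarMul.star_mul, star_star]
    calc star U * V * (star V * U) = star U * (V * star V) * U := by simp only [Matrix.mul_assoc]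
      _ = 1 := by rw [Matrix.mem_unitaryGroup_iff.mp hV, Matrix.mul_one,
        Matrix.mem_unitaryGroup_iff'.mp hU]
  have hS : (Matrix.of fun x z => ‖(star V * U) x z‖ ^ 2 : Matrix κ κ ℝ) ∈
      doublyStochastic ℝ κ := by
    rw [mem_doublyStochastic_iff_sum]
    refine ⟨fun x z => by simp only [Matrix.of_apply]; positivity, fun x => ?_, fun z => ?_⟩
    · simp only [Matrix.of_apply]
      exact unitary_row hT1 x
    · simp only [Matrix.of_apply]
      have := unitary_row hT2 z
      simpa only [Matrix.star_apply, norm_star] using this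
  have h2 := hull_of_ds hS r
  have h3 : (fun x => ∑ z, r z * (Matrix.of fun x z => ‖(star V * U) x z‖ ^ 2 :
      Matrix κ κ ℝ) x z) = q := by
    funext x
    rw [h x]
    rfl
  rw [h3] at h2
  exact maj_of_hull h2

/-- Diagonal density matrices with weights majorized by `p` are feasible. -/
lemma feasible_conj {p r : κ → ℝ} (hr0 : ∀ x, 0 ≤ r x) (hr1 : ∑ x, r x = 1)
    (hrp : Majorized r p) {V : Matrix κ κ ℂ} (hV : V ∈ Matrix.unitaryGroup κ ℂ) :
    Feasible p (V * Matrix.diagonal (fun x => ((r x : ℝ) : ℂ)) * star V) := by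
  have hpsd : (V * Matrix.diagonal (fun x => ((r x : ℝ) : ℂ)) * star V).PosSemidef := by
    have h1 : (Matrix.diagonal (fun x => ((r x : ℝ) : ℂ))).PosSemidef := by
      refine Matrix.PosSemidef.diagonal ?_
      intro x
      show (0 : ℂ) ≤ ((r x : ℝ) : ℂ)
      exact_mod_cast hr0 x
    rw [Matrix.star_eq_conjTranspose]
    exact h1.mul_mul_conjTranspose_same V
  have htr : (V * Matrix.diagonal (fun x => ((r x : ℝ) : ℂ)) * star V).trace = 1 := by
    rw [Matrix.trace_mul_comm, ← Matrix.mul_assoc, Matrix.mem_unitaryGroup_iff'.mp hV,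
      Matrix.one_mul, Matrix.trace_diagonal]
    exact_mod_cast hr1
  refine ⟨⟨hpsd, htr⟩, hpsd.isHermitian, ?_⟩
  obtain ⟨U, hU, hUτ⟩ := spectral_form hpsd.isHermitian
  exact (maj_of_unitary hV hU (fun x => spec_eq hU hUτ x)).trans hrp

end Pool.Agent.MP2725c9
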