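import Mathlib
import Pool.Agent.Lib.MP_2725c9_mp.H22.Spc

set_option autoImplicit false
open Matrix
open scoped ComplexOrder

namespace Pool.Agent.MP2725c9

section Pr

variable {κ : Type*} [Fintype κ] [DecidableEq κ]

lemma trace_single_mul' (u v : κ) (ρ : Matrix κ κ ℂ) :
    (Matrix.single u v (1 : ℂ) * ρ).trace = ρ v u := by
  rw [Matrix.trace_mul_comm, Matrix.trace]
  simp only [Matrix.diag_apply, Matrix.mul_apply, Matrix.single_apply]
  rw [Finset.sum_eq_single v]
  · rw [Finset.sum_eq_single u]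
    · simp
    · intro b _ hb
      simp [hb.symm]
    · simp
  · intro b _ hb
    refine Finset.sum_eq_zero fun c _ => ?_
    simp [hb.symm]
  · simp

/-- A rank two projector. -/
noncomputable def proj2 (u v w : κ) : Matrix κ κ ℂ :=
  Matrix.single u u (1 : ℂ) + (16 / 25 : ℂ) • Matrix.single v v (1 : ℂ) +
    (9 / 25 : ℂ) • Matrix.single w w (1 : ℂ) +
    (12 / 25 : ℂ) • (Matrix.single v w (1 : ℂ) + Matrix.single w v (1 : ℂ))

lemma proj2_mem {u v w : κ} (h1 : u ≠ v) (h2 : u ≠ w)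
    (h3 : v ≠ w) : proj2 u v w ∈ (projSet 2 : Set (Matrix κ κ ℂ)) := by
  refine ⟨?_, ?_, ?_⟩
  · simp only [proj2, Matrix.IsHermitian, Matrix.conjTranspose_add, Matrix.conjTranspose_smul,
      Matrix.conjTranspose_single, star_one, star_div₀]
    simp only [Complex.star_def, Complex.conj_ofNat]
    rw [add_comm (Matrix.single w v (1 : ℂ))]
  · have e1 : ∀ a b c e : κ, b ≠ c → (Matrix.single a b (1 : ℂ)) * (Matrix.single c e (1 : ℂ)) = 0 :=
      fun a b c e h => by
        apply Matrix.single_mul_single_of_ne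
        exact h
    have e2 : ∀ a b e : κ, (Matrix.single a b (1 : ℂ)) * (Matrix.single b e (1 : ℂ)) =
        Matrix.single a e (1 : ℂ) := fun a b e => by
      rw [Matrix.single_mul_single_same, mul_one]
    simp only [proj2, Matrix.add_mul, Matrix.mul_add, Matrix.smul_mul, Matrix.mul_smul, e2,
      e1 _ _ _ _ h1, e1 _ _ _ _ h2, e1 _ _ _ _ h3, e1 _ _ _ _ h1.symm, e1 _ _ _ _ h2.symm,
      e1 _ _ _ _ h3.symm]
    module
  · simp only [proj2, Matrix.trace_add, Matrix.trace_smul, Matrix.trace_single_eq_same,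
      Matrix.trace_single_eq_of_ne _ _ _ h3, Matrix.trace_single_eq_of_ne _ _ _ h3.symm]
    simp only [smul_eq_mul]
    norm_num

lemma trace_proj2 (u v w : κ) (ρ : Matrix κ κ ℂ) :
    (proj2 u v w * ρ).trace = ρ u u + 16 / 25 * ρ v v + 9 / 25 * ρ w w +
      12 / 25 * (ρ w v + ρ v w) := by
  simp only [proj2, Matrix.add_mul, Matrix.smul_mul, Matrix.trace_add, Matrix.trace_smul,
    trace_single_mul', smul_eq_mul]

lemma trace_projd (u v : κ) (ρ : Matrix κ κ ℂ) :
    (projd u v * ρ).trace = ρ u u + ρ v v := by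
  simp only [projd, Matrix.add_mul, Matrix.trace_add, trace_single_mul']

lemma proj4_mem {s t u v w : κ} (hst : s ≠ t) (hsu : s ≠ u) (hsv : s ≠ v) (hsw : s ≠ w)
    (htu : t ≠ u) (htv : t ≠ v) (htw : t ≠ w) (huv : u ≠ v) (huw : u ≠ w) (hvw : v ≠ w) :
    projd s t + proj2 u v w ∈ (projSet 4 : Set (Matrix κ κ ℂ)) := by
  obtain ⟨a1, a2, a3⟩ := projd_mem hst
  obtain ⟨b1, b2, b3⟩ := proj2_mem huv huw hvw
  have e1 : ∀ a b c e : κ, b ≠ c → (Matrix.single a b (1 : ℂ)) * (Matrix.single c e (1 : ℂ)) = 0 :=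
    fun a b c e h => by
      apply Matrix.single_mul_single_of_ne
      exact h
  have hab : projd s t * proj2 u v w = 0 := by
    simp only [projd, proj2, Matrix.add_mul, Matrix.mul_add, Matrix.mul_smul,
      e1 _ _ _ _ hsu, e1 _ _ _ _ hsv, e1 _ _ _ _ hsw, e1 _ _ _ _ htu, e1 _ _ _ _ htv,
      e1 _ _ _ _ htw]
    simp
  have hba : proj2 u v w * projd s t = 0 := by
    simp only [projd, proj2, Matrix.add_mul, Matrix.mul_add, Matrix.smul_mul,
      e1 _ _ _ _ hsu.symm, e1 _ _ _ _ hsv.symm, e1 _ _ _ _ hsw.symm, e1 _ _ _ _ htu.symm,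
      e1 _ _ _ _ htv.symm, e1 _ _ _ _ htw.symm]
    simp
  refine ⟨a1.add b1, ?_, ?_⟩
  · rw [Matrix.add_mul, Matrix.mul_add, Matrix.mul_add, a2, b2, hab, hba]
    simp
  · rw [Matrix.trace_add, a3, b3]
    push_cast
    norm_num

end Pr

section Red

variable {n : ℕ} {d : Fin n → ℕ}

lemma glue_eq_iff (I : Finset (Fin n)) (u : Idx d I) (c : (i : {i // i ∉ I}) → Fin (d i.1))
    (x : Full d) : x = glue I u c ↔ rx I x = u ∧ (fun i : {i // i ∉ I} => x i.1) = c := by
  constructor
  · intro h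
    subst h
    constructor
    · funext i
      simp [rx, glue]
    · funext i
      simp only [glue]
      rw [dif_neg i.2]
  · rintro ⟨h1, h2⟩
    subst h1 h2
    funext i
    by_cases h : i ∈ I
    · simp only [glue]
      rw [dif_pos h]
      rfl
    · simp only [glue]
      rw [dif_neg h]

lemma reduced_single (I : Finset (Fin n)) (x x' : Full d) (u v : Idx d I) :
    reduced I (Matrix.single x x' (1 : ℂ)) u v =
      if (∀ i, i ∉ I → x i = x' i) ∧ rx I x = u ∧ rx I x' = v then 1 else 0 := by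
  simp only [reduced, Matrix.of_apply, Matrix.single_apply, glue_eq_iff]
  by_cases h : (∀ i, i ∉ I → x i = x' i) ∧ rx I x = u ∧ rx I x' = v
  · rw [if_pos h, Finset.sum_eq_single (fun i : {i // i ∉ I} => x i.1)]
    · rw [if_pos]
      refine ⟨⟨h.2.1, rfl⟩, h.2.2, ?_⟩
      funext i
      exact (h.1 i.1 i.2).symm
    · intro c _ hc
      rw [if_neg]
      rintro ⟨⟨-, h2⟩, -⟩
      exact hc h2.symm
    · intro h
      exact absurd (Finset.mem_univ _) h
  · rw [if_neg h]
    refine Finset.sum_eq_zero fun c _ => ?_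
    rw [if_neg]
    rintro ⟨⟨h1, h2⟩, h3, h4⟩
    apply h
    refine ⟨fun i hi => ?_, h1, h3⟩
    have := congrFun (h2.trans h4.symm) ⟨i, hi⟩
    exact this

lemma reduced_add (I : Finset (Fin n)) (A B : Matrix (Full d) (Full d) ℂ) (u v : Idx d I) :
    reduced I (A + B) u v = reduced I A u v + reduced I B u v := by
  simp only [reduced, Matrix.of_apply, Matrix.add_apply, Finset.sum_add_distrib]

lemma reduced_smul (I : Finset (Fin n)) (r : ℂ) (A : Matrix (Full d) (Full d) ℂ)
    (u v : Idx d I) : reduced I (r • A) u v = r * reduced I A u v := by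
  simp only [reduced, Matrix.of_apply, Matrix.smul_apply, smul_eq_mul, Finset.mul_sum]

/-- The quantum state, given the embedding `E` of three bits. -/
noncomputable def sig (E : B3 → Full d) : Matrix (Full d) (Full d) ℂ :=
  (1 / 4 : ℂ) • (projd (E (0, 0, 0)) (E (0, 0, 1)) +
    proj2 (E (0, 1, 0)) (E (1, 1, 0)) (E (0, 1, 1)))

lemma sig_feasible {E : B3 → Full d} (hE : Function.Injective E) {s : Finset (Full d)}
    (hs : s.card = 4) : Feasible (fun x => if x ∈ s then 1 / 4 else 0) (sig E) := by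
  have h : ∀ y z : B3, y ≠ z → E y ≠ E z := fun y z h h' => h (hE h')
  exact feasible_proj (proj4_mem (h _ _ (by decide)) (h _ _ (by decide)) (h _ _ (by decide))
    (h _ _ (by decide)) (h _ _ (by decide)) (h _ _ (by decide)) (h _ _ (by decide))
    (h _ _ (by decide)) (h _ _ (by decide)) (h _ _ (by decide))) hs

lemma sig_entry {β : Type*} [DecidableEq β] (I : Finset (Fin n)) (E : B3 → Full d) (φ : B3 → β)
    (hφ : ∀ y z, rx I (E y) = rx I (E z) ↔ φ y = φ z)
    (ag : Prop) [Decidable ag] (hag : (∀ i, i ∉ I → E (1, 1, 0) i = E (0, 1, 1) i) ↔ ag)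
    (y z : B3) :
    reduced I (sig E) (rx I (E y)) (rx I (E z)) =
      1 / 4 * ((if φ (0, 0, 0) = φ y ∧ φ (0, 0, 0) = φ z then 1 else 0) +
        (if φ (0, 0, 1) = φ y ∧ φ (0, 0, 1) = φ z then 1 else 0) +
        ((if φ (0, 1, 0) = φ y ∧ φ (0, 1, 0) = φ z then 1 else 0) +
        16 / 25 * (if φ (1, 1, 0) = φ y ∧ φ (1, 1, 0) = φ z then 1 else 0) +
        9 / 25 * (if φ (0, 1, 1) = φ y ∧ φ (0, 1, 1) = φ z then 1 else 0) +
        12 / 25 * ((if ag ∧ φ (1, 1, 0) = φ y ∧ φ (0, 1, 1) = φ z then 1 else 0) +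
          (if ag ∧ φ (0, 1, 1) = φ y ∧ φ (1, 1, 0) = φ z then 1 else 0)))) := by
  have hag' : (∀ i, i ∉ I → E (0, 1, 1) i = E (1, 1, 0) i) ↔ ag := by
    rw [← hag]
    exact ⟨fun h i hi => (h i hi).symm, fun h i hi => (h i hi).symm⟩
  simp only [sig, projd, proj2, reduced_smul, reduced_add, reduced_single, hφ, hag, hag',
    implies_true, true_and]

end Red

end Pool.Agent.MP2725c9
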