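import Mathlib
import Pool.Agent.Lib.MP_2725c9_mp.H22.Maj
import Pool.Agent.Lib.MP_2725c9_mp.H22.Stt

set_option autoImplicit false
open Matrix
open scoped ComplexOrder

namespace Pool.Agent.MP2725c9

variable {n : ℕ} {d : Fin n → ℕ}

/-- Basis vectors as pairs. -/
def glueEquiv (I : Finset (Fin n)) :
    (Idx d I × ((i : {i // i ∉ I}) → Fin (d i.1))) ≃ Full d where
  toFun p := glue I p.1 p.2
  invFun x := (rx I x, fun i => x i.1)
  left_inv p := by
    have h := (glue_eq_iff I p.1 p.2 (glue I p.1 p.2)).mp rfl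
    exact Prod.ext h.1 h.2
  right_inv x := ((glue_eq_iff I (rx I x) (fun i => x i.1) x).mpr ⟨rfl, rfl⟩).symm

lemma sum_glue {M : Type*} [AddCommMonoid M] (I : Finset (Fin n)) (F : Full d → M) :
    ∑ x, F x = ∑ u : Idx d I, ∑ c : ((i : {i // i ∉ I}) → Fin (d i.1)), F (glue I u c) := by
  rw [← Equiv.sum_comp (glueEquiv I), Fintype.sum_prod_type]
  rfl

lemma rx_glue (I : Finset (Fin n)) (u : Idx d I) (c : (i : {i // i ∉ I}) → Fin (d i.1)) :
    rx I (glue I u c) = u := ((glue_eq_iff I u c (glue I u c)).mp rfl).1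

lemma off_glue (I : Finset (Fin n)) (u : Idx d I) (c : (i : {i // i ∉ I}) → Fin (d i.1)) :
    (fun i : {i // i ∉ I} => glue I u c i.1) = c := ((glue_eq_iff I u c (glue I u c)).mp rfl).2

lemma tens_glue (W : (i : Fin n) → Matrix (Fin (d i)) (Fin (d i)) ℂ) (I : Finset (Fin n))
    (a : Idx d I) (c : (i : {i // i ∉ I}) → Fin (d i.1)) (x : Full d) :
    tens W (glue I a c) x = WI W I a (rx I x) * ∏ i : {i // i ∉ I}, W i.1 (c i) (x i.1) := by
  simp only [tens, Matrix.of_apply, WI]
  unfold glue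
  rw [← Fintype.prod_subtype_mul_prod_subtype (fun i => i ∈ I)]
  congr 1
  · refine Finset.prod_congr (Finset.ext (by simp)) fun i _ => ?_
    rw [dif_pos i.2]
    rfl
  · refine Finset.prod_congr (Finset.ext (by simp)) fun i _ => ?_
    rw [dif_neg i.2]

lemma sum_off (W : (i : Fin n) → Matrix (Fin (d i)) (Fin (d i)) ℂ)
    (hW : ∀ i, W i ∈ Matrix.unitaryGroup (Fin (d i)) ℂ) (I : Finset (Fin n)) (x y : Full d) :
    ∑ c : ((i : {i // i ∉ I}) → Fin (d i.1)), (∏ i : {i // i ∉ I}, W i.1 (c i) (x i.1)) *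
      star (∏ i : {i // i ∉ I}, W i.1 (c i) (y i.1)) =
    if (fun i : {i // i ∉ I} => x i.1) = (fun i : {i // i ∉ I} => y i.1) then 1 else 0 := by
  simp only [star_prod, ← Finset.prod_mul_distrib]
  have h2 := Finset.prod_univ_sum (R := ℂ)
    (fun i : {i // i ∉ I} => (Finset.univ : Finset (Fin (d i.1))))
    (fun i j => W i.1 j (x i.1) * star (W i.1 j (y i.1)))
  rw [Fintype.piFinset_univ] at h2
  rw [← h2]
  have h1 : ∀ i : {i // i ∉ I}, ∑ j, W i.1 j (x i.1) * star (W i.1 j (y i.1)) =
      (1 : Matrix (Fin (d i.1)) (Fin (d i.1)) ℂ) (y i.1) (x i.1) := by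
    intro i
    have := Matrix.mem_unitaryGroup_iff'.mp (hW i.1)
    have h3 := congrFun (congrFun this (y i.1)) (x i.1)
    rw [Matrix.mul_apply] at h3
    rw [← h3]
    refine Finset.sum_congr rfl fun j _ => ?_
    rw [Matrix.star_apply, mul_comm]
  rw [Finset.prod_congr rfl (fun i _ => h1 i)]
  by_cases h : (fun i : {i // i ∉ I} => x i.1) = (fun i : {i // i ∉ I} => y i.1)
  · rw [if_pos h]
    refine Finset.prod_eq_one fun i _ => ?_
    have h5 : x i.1 = y i.1 := congrFun h i
    rw [h5]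
    exact Matrix.one_apply_eq _
  · rw [if_neg h]
    obtain ⟨i, hi⟩ := Function.ne_iff.mp h
    exact Finset.prod_eq_zero (Finset.mem_univ i) (Matrix.one_apply_ne (Ne.symm hi))

lemma conj_apply {κ : Type*} [Fintype κ] (V M : Matrix κ κ ℂ) (x y : κ) :
    (V * M * star V) x y = ∑ z, ∑ w, M z w * (V x z * star (V y w)) := by
  rw [Matrix.mul_apply, Finset.sum_comm]
  refine Finset.sum_congr rfl fun w _ => ?_
  rw [Matrix.mul_apply, Matrix.star_apply, Finset.sum_mul]
  refine Finset.sum_congr rfl fun z _ => ?_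
  ring

/-- Partial traces and product unitaries. -/
lemma reduced_conj (W : (i : Fin n) → Matrix (Fin (d i)) (Fin (d i)) ℂ)
    (hW : ∀ i, W i ∈ Matrix.unitaryGroup (Fin (d i)) ℂ) (I : Finset (Fin n))
    (τ : Matrix (Full d) (Full d) ℂ) :
    reduced I (tens W * τ * star (tens W)) = WI W I * reduced I τ * star (WI W I) := by
  ext a b
  rw [conj_apply]
  have hL : reduced I (tens W * τ * star (tens W)) a b =
      ∑ x, ∑ y, τ x y * (WI W I a (rx I x) * star (WI W I b (rx I y)) *
        (if (fun i : {i // i ∉ I} => x i.1) = (fun i : {i // i ∉ I} => y i.1) then 1 else 0)) := by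
    simp only [reduced, Matrix.of_apply, conj_apply]
    rw [Finset.sum_comm]
    refine Finset.sum_congr rfl fun x _ => ?_
    rw [Finset.sum_comm]
    refine Finset.sum_congr rfl fun y _ => ?_
    rw [← Finset.mul_sum]
    congr 1
    rw [← sum_off W hW I x y, Finset.mul_sum]
    refine Finset.sum_congr rfl fun c _ => ?_
    rw [tens_glue, tens_glue, star_mul']
    ring
  rw [hL, sum_glue I]
  refine Finset.sum_congr rfl fun u _ => ?_
  simp only [reduced, Matrix.of_apply, Finset.sum_mul]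
  rw [Finset.sum_comm (s := (Finset.univ : Finset (Idx d I)))]
  refine Finset.sum_congr rfl fun c _ => ?_
  rw [sum_glue I]
  refine Finset.sum_congr rfl fun v _ => ?_
  rw [Finset.sum_eq_single c]
  · simp only [rx_glue, off_glue, if_true, mul_one]
  · intro c' _ hc'
    simp only [rx_glue, off_glue]
    rw [if_neg (Ne.symm hc')]
    ring
  · intro h
    exact absurd (Finset.mem_univ _) h

lemma trace_reduced (I : Finset (Fin n)) (τ : Matrix (Full d) (Full d) ℂ) :
    (reduced I τ).trace = τ.trace := by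
  simp only [Matrix.trace, Matrix.diag_apply]
  rw [sum_glue I]
  rfl

lemma reduced_eq_sum (I : Finset (Fin n)) (τ : Matrix (Full d) (Full d) ℂ) :
    reduced I τ = ∑ c : ((i : {i // i ∉ I}) → Fin (d i.1)),
      τ.submatrix (fun u => glue I u c) (fun u => glue I u c) := by
  ext a b
  rw [Matrix.sum_apply]
  rfl

lemma reduced_state (I : Finset (Fin n)) {τ : Matrix (Full d) (Full d) ℂ}
    (h : τ ∈ states (Full d)) : reduced I τ ∈ states (Idx d I) := by
  refine ⟨?_, ?_⟩
  · rw [reduced_eq_sum]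
    exact Matrix.posSemidef_sum _ fun c _ => h.1.submatrix _
  · rw [trace_reduced]
    exact h.2

lemma reduced_diagonal (I : Finset (Fin n)) (q : Full d → ℂ) :
    reduced I (Matrix.diagonal q) = Matrix.diagonal (fun u => ∑ c, q (glue I u c)) := by
  ext a b
  simp only [reduced, Matrix.of_apply, Matrix.diagonal_apply]
  by_cases h : a = b
  · subst h
    simp
  · rw [if_neg h]
    refine Finset.sum_eq_zero fun c _ => ?_
    rw [if_neg]
    intro h'
    apply h
    rw [← rx_glue I a c, h', rx_glue]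

end Pool.Agent.MP2725c9
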