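import Mathlib
import Pool.Agent.Lib.MP_2725c9_mp.H22.Stt

set_option autoImplicit false
open Matrix
open scoped ComplexOrder

namespace Pool.Agent.MP2725c9

variable {n : ℕ} {d : Fin n → ℕ} {a b c : Fin n}

section Rx

variable (hab : a ≠ b) (hac : a ≠ c) (hbc : b ≠ c) (t0 t1 : (i : Fin n) → Fin (d i))

include hab hac hbc in
lemma rx_ab (ha : t0 a ≠ t1 a) (hb : t0 b ≠ t1 b) (y z : B3) :
    rx {a, b} (emb a b c t0 t1 y) = rx {a, b} (emb a b c t0 t1 z) ↔
      (y.1, y.2.1) = (z.1, z.2.1) := by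
  constructor
  · intro h
    rw [rx_eq_iff] at h
    have h1 := h a (by simp)
    have h2 := h b (by simp)
    rw [emb_a hab hac, emb_a hab hac] at h1
    rw [emb_b hab hbc, emb_b hab hbc] at h2
    exact Prod.ext (bit_inj ha h1) (bit_inj hb h2)
  · intro h
    rw [Prod.mk.injEq] at h
    rw [rx_eq_iff]
    intro i hi
    rw [Finset.mem_insert, Finset.mem_singleton] at hi
    rcases hi with rfl | rfl
    · rw [emb_a hab hac, emb_a hab hac, h.1]
    · rw [emb_b hab hbc, emb_b hab hbc, h.2]

include hab hac in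
lemma rx_a (ha : t0 a ≠ t1 a) (y z : B3) :
    rx {a} (emb a b c t0 t1 y) = rx {a} (emb a b c t0 t1 z) ↔ y.1 = z.1 := by
  rw [rx_eq_iff]
  constructor
  · intro h
    have h1 := h a (by simp)
    rw [emb_a hab hac, emb_a hab hac] at h1
    exact bit_inj ha h1
  · intro h i hi
    rw [Finset.mem_singleton] at hi
    subst hi
    rw [emb_a hab hac, emb_a hab hac, h]

include hab hbc in
lemma rx_b (hb : t0 b ≠ t1 b) (y z : B3) :
    rx {b} (emb a b c t0 t1 y) = rx {b} (emb a b c t0 t1 z) ↔ y.2.1 = z.2.1 := by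
  rw [rx_eq_iff]
  constructor
  · intro h
    have h1 := h b (by simp)
    rw [emb_b hab hbc, emb_b hab hbc] at h1
    exact bit_inj hb h1
  · intro h i hi
    rw [Finset.mem_singleton] at hi
    subst hi
    rw [emb_b hab hbc, emb_b hab hbc, h]

include hac hbc in
lemma rx_c (hc : t0 c ≠ t1 c) (y z : B3) :
    rx {c} (emb a b c t0 t1 y) = rx {c} (emb a b c t0 t1 z) ↔ y.2.2 = z.2.2 := by
  rw [rx_eq_iff]
  constructor
  · intro h
    have h1 := h c (by simp)
    rw [emb_c hac hbc, emb_c hac hbc] at h1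
    exact bit_inj hc h1
  · intro h i hi
    rw [Finset.mem_singleton] at hi
    subst hi
    rw [emb_c hac hbc, emb_c hac hbc, h]

lemma rx_o {i : Fin n} (h1 : i ≠ a) (h2 : i ≠ b) (h3 : i ≠ c) (y z : B3) :
    rx {i} (emb a b c t0 t1 y) = rx {i} (emb a b c t0 t1 z) ↔ () = () := by
  rw [rx_eq_iff]
  refine ⟨fun _ => rfl, fun _ j hj => ?_⟩
  rw [Finset.mem_singleton] at hj
  subst hj
  rw [emb_o _ _ _ h1 h2 h3, emb_o _ _ _ h1 h2 h3]

include hac hbc in
lemma no_ag_of_c (hc : t0 c ≠ t1 c) (I : Finset (Fin n)) (hI : c ∉ I) :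
    (∀ i, i ∉ I → emb a b c t0 t1 (1, 1, 0) i = emb a b c t0 t1 (0, 1, 1) i) ↔ False := by
  refine ⟨fun h => ?_, fun h => h.elim⟩
  have h1 := h c hI
  rw [emb_c hac hbc, emb_c hac hbc] at h1
  exact absurd (bit_inj hc h1) (by decide)

include hab hac in
lemma no_ag_of_a (ha : t0 a ≠ t1 a) (I : Finset (Fin n)) (hI : a ∉ I) :
    (∀ i, i ∉ I → emb a b c t0 t1 (1, 1, 0) i = emb a b c t0 t1 (0, 1, 1) i) ↔ False := by
  refine ⟨fun h => ?_, fun h => h.elim⟩
  have h1 := h a hI
  rw [emb_a hab hac, emb_a hab hac] at h1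
  exact absurd (bit_inj ha h1) (by decide)

include hab hbc in
lemma ag_ac :
    (∀ i, i ∉ ({a, c} : Finset (Fin n)) →
      emb a b c t0 t1 (1, 1, 0) i = emb a b c t0 t1 (0, 1, 1) i) ↔ True := by
  refine ⟨fun _ => trivial, fun _ i hi => ?_⟩
  rw [Finset.mem_insert, Finset.mem_singleton, not_or] at hi
  by_cases h : i = b
  · subst h
    rw [emb_b hab hbc, emb_b hab hbc]
  · rw [emb_o _ _ _ hi.1 h hi.2, emb_o _ _ _ hi.1 h hi.2]

/-- The value of the quantum state. -/
lemma sig_value (hab : a ≠ b) (hac : a ≠ c) (hbc : b ≠ c) (ha : t0 a ≠ t1 a) (hb : t0 b ≠ t1 b)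
    (hc : t0 c ≠ t1 c) :
    (25504 : ℝ) / 10000 + 4 * n ≤
      objective (kfam (fS a b c) fm (fr a b c)) (sig (emb a b c t0 t1)) := by
  rw [objective_eq]
  set E := emb a b c t0 t1 with hE
  -- the pair a b
  have v1 : (1 : ℝ) / 2 ≤ kf 1 (reduced {a, b} (sig E)) := by
    have h := le_kf (proj1_mem (rx {a, b} (E (0, 0, 0)))) (reduced {a, b} (sig E))
    rw [trace_single_mul', sig_entry {a, b} E (fun y => (y.1, y.2.1))
      (rx_ab hab hac hbc t0 t1 ha hb) False (no_ag_of_c hac hbc t0 t1 hc _ (by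
        simp [hac.symm, hbc.symm]))] at h
    norm_num at h
    linarith
  have v2 : (66 : ℝ) / 100 ≤ kf 1 (reduced {c} (sig E)) := by
    have h := le_kf (proj1_mem (rx {c} (E (0, 0, 0)))) (reduced {c} (sig E))
    rw [trace_single_mul', sig_entry {c} E (fun y => y.2.2)
      (rx_c hac hbc t0 t1 hc) False (no_ag_of_a hab hac t0 t1 ha _ (by
        simp [hac]))] at h
    norm_num at h
    linarith
  have v3 : (8904 : ℝ) / 10000 ≤ kf 2 (reduced {a, c} (sig E)) := by
    have key := rx_ac hab hac hbc t0 t1 ha hc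
    have h := le_kf (proj2_mem (u := rx {a, c} (E (0, 0, 0))) (v := rx {a, c} (E (0, 0, 1)))
      (w := rx {a, c} (E (1, 0, 0))) (fun h => absurd ((key _ _).mp h) (by decide))
      (fun h => absurd ((key _ _).mp h) (by decide))
      (fun h => absurd ((key _ _).mp h) (by decide))) (reduced {a, c} (sig E))
    rw [trace_proj2] at h
    simp only [sig_entry {a, c} E (fun y => (y.1, y.2.2)) key True (ag_ac hab hbc t0 t1)] at h
    norm_num at h
    linarith
  have v4 : ∀ i, 1 ≤ kf (if i = a ∨ i = b ∨ i = c then 2 else 1) (reduced {i} (sig E)) := by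
    intro i
    by_cases h1 : i = a
    · subst h1
      rw [if_pos (Or.inl rfl)]
      have key := rx_a hab hac t0 t1 ha
      have h := le_kf (projd_mem (u := rx {i} (E (0, 0, 0))) (v := rx {i} (E (1, 1, 1)))
        (fun h => absurd ((key _ _).mp h) (by decide))) (reduced {i} (sig E))
      rw [trace_projd] at h
      simp only [sig_entry {i} E (fun y => y.1) key False (no_ag_of_c hac hbc t0 t1 hc {i} (by
        simp [hac.symm]))] at h
      norm_num at h
      linarith
    · by_cases h2 : i = b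
      · subst h2
        rw [if_pos (Or.inr (Or.inl rfl))]
        have key := rx_b hab hbc t0 t1 hb
        have h := le_kf (projd_mem (u := rx {i} (E (0, 0, 0))) (v := rx {i} (E (1, 1, 1)))
          (fun h => absurd ((key _ _).mp h) (by decide))) (reduced {i} (sig E))
        rw [trace_projd] at h
        simp only [sig_entry {i} E (fun y => y.2.1) key False (no_ag_of_c hac hbc t0 t1 hc {i} (by
          simp [hbc.symm]))] at h
        norm_num at h
        linarith
      · by_cases h3 : i = c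
        · subst h3
          rw [if_pos (Or.inr (Or.inr rfl))]
          have key := rx_c hac hbc t0 t1 hc
          have h := le_kf (projd_mem (u := rx {i} (E (0, 0, 0))) (v := rx {i} (E (1, 1, 1)))
            (fun h => absurd ((key _ _).mp h) (by decide))) (reduced {i} (sig E))
          rw [trace_projd] at h
          simp only [sig_entry {i} E (fun y => y.2.2) key False
            (no_ag_of_a hab hac t0 t1 ha {i} (by simp [hac]))] at h
          norm_num at h
          linarith
        · rw [if_neg (by tauto)]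
          have h := le_kf (proj1_mem (rx {i} (E (0, 0, 0)))) (reduced {i} (sig E))
          rw [trace_single_mul', sig_entry {i} E (fun _ => ()) (rx_o t0 t1 h1 h2 h3) False
            (no_ag_of_a hab hac t0 t1 ha _ (by simp [Ne.symm h1]))] at h
          norm_num at h
          linarith
  have v5 : 4 * (n : ℝ) ≤
      ∑ i, 4 * kf (if i = a ∨ i = b ∨ i = c then 2 else 1) (reduced {i} (sig E)) := by
    have : ∑ i : Fin n, (4 : ℝ) * 1 = 4 * n := by simp; ring
    rw [← this]
    exact Finset.sum_le_sum fun i _ => mul_le_mul_of_nonneg_left (v4 i) (by norm_num)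
  linarith

end Rx

/-- Three factors of dimension at least two: the weak form fails. -/
theorem neg_half (hd : ∀ i, 1 ≤ d i)
    (h3 : 3 ≤ (Finset.univ.filter fun i => 2 ≤ d i).card) : ¬ WeakClassicalOptimizers d := by
  intro hW
  obtain ⟨a, ha, b, hb, c, hc, hab, hac, hbc⟩ := Finset.two_lt_card.mp h3
  rw [Finset.mem_filter] at ha hb hc
  set t0 : (i : Fin n) → Fin (d i) := fun i => ⟨0, hd i⟩ with ht0
  set t1 : (i : Fin n) → Fin (d i) := fun i => if h : 2 ≤ d i then ⟨1, h⟩ else ⟨0, hd i⟩ with ht1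
  have hne : ∀ i, 2 ≤ d i → t0 i ≠ t1 i := by
    intro i hi h
    simp only [ht0, ht1, dif_pos hi, Fin.mk.injEq] at h
    omega
  have hinj := emb_inj hab hac hbc t0 t1 (hne a ha.2) (hne b hb.2) (hne c hc.2)
  have hcard : 4 ≤ (Finset.univ : Finset (Full d)).card := by
    have := Fintype.card_le_of_injective _ hinj
    rw [Finset.card_univ]
    refine le_trans ?_ this
    decide
  obtain ⟨s, -, hs⟩ := Finset.exists_subset_card_eq hcard
  obtain ⟨τ, hτ, ⟨W, hWu, q, hq⟩, hmax⟩ := hW s hs (kfam (fS a b c) fm (fr a b c))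
    (kfam_continuous _ _ _) (kfam_convex _ _ fm_nonneg _) (kfam_unitary _ _ _) (1 / 25)
    (by norm_num)
  have hWF : tens W ∈ Matrix.unitaryGroup (Full d) ℂ := prod_unitary W hWu
  obtain ⟨q0, q1, q2⟩ := feasible_bounds hτ hWF hq
  have h1 := classical_le hab hac hbc hd ha.2 hb.2 hc.2 W hWu q q0 q1 q2
  rw [← hq] at h1
  have h2 := hmax (sig (emb a b c t0 t1)) (sig_feasible hinj hs)
  have h4 := sig_value t0 t1 hab hac hbc (hne a ha.2) (hne b hb.2) (hne c hc.2)
  linarith

end Pool.Agent.MP2725c9
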