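import Mathlib
import Pool.Agent.Lib.MP_2725c9_mp.H22.Cov

set_option autoImplicit false
open Matrix
open scoped ComplexOrder

namespace Pool.Agent.MP2725c9

variable {n : ℕ} {d : Fin n → ℕ}

/-- With diagonal one-site reductions and at most one nontrivial factor in `I`, the reduction to `I`
is diagonal. -/
lemma offdiag_zero {T : Finset (Fin n)} (hT : ∀ i, i ∉ T → d i = 1)
    {τ : Matrix (Full d) (Full d) ℂ}
    (hdiag : ∀ i, ∀ u v : Idx d {i}, u ≠ v → reduced {i} τ u v = 0)
    (I : Finset (Fin n)) (hI : (I ∩ T).card ≤ 1) (u v : Idx d I) (huv : u ≠ v) :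
    reduced I τ u v = 0 := by
  obtain ⟨⟨i, hi⟩, hne⟩ := Function.ne_iff.mp huv
  have hsub : ∀ j, j ∉ T → Subsingleton (Fin (d j)) := fun j hj => by
    rw [hT j hj]; infer_instance
  have hiT : i ∈ T := by
    by_contra h
    have := hsub i h
    exact hne (Subsingleton.elim _ _)
  have hoth : ∀ j, j ∈ I → j ≠ i → j ∉ T := by
    intro j hj hji hjT
    have h2 : ({i, j} : Finset (Fin n)) ⊆ I ∩ T := by
      intro k hk
      rw [Finset.mem_insert, Finset.mem_singleton] at hk
      rcases hk with rfl | rfl
      · exact Finset.mem_inter.mpr ⟨hi, hiT⟩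
      · exact Finset.mem_inter.mpr ⟨hj, hjT⟩
    have h3 := Finset.card_le_card h2
    rw [Finset.card_pair (Ne.symm hji)] at h3
    omega
  have hmem : ∀ j : {j // j ∈ ({i} : Finset (Fin n))}, j.1 ∈ I := fun j => by
    rw [Finset.mem_singleton.mp j.2]; exact hi
  have hnot : ∀ j : {j // j ∉ I}, j.1 ∉ ({i} : Finset (Fin n)) := fun j h => by
    rw [Finset.mem_singleton] at h
    exact j.2 (h ▸ hi)
  have key : reduced I τ u v = reduced {i} τ (fun j => u ⟨j.1, hmem j⟩)
      (fun j => v ⟨j.1, hmem j⟩) := by
    simp only [reduced, Matrix.of_apply]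
    refine Fintype.sum_bijective (fun c => fun (j : {j // j ∉ ({i} : Finset (Fin n))}) =>
      glue I u c j.1) ⟨?_, ?_⟩ _ _ ?_
    · intro c c' h
      funext j
      have h1 := congrFun h ⟨j.1, hnot j⟩
      simp only [glue] at h1
      rw [dif_neg j.2, dif_neg j.2] at h1
      exact h1
    · intro c'
      refine ⟨fun j => c' ⟨j.1, hnot j⟩, ?_⟩
      funext j
      simp only [glue]
      by_cases hj : j.1 ∈ I
      · have := hsub j.1 (hoth j.1 hj (fun h => j.2 (Finset.mem_singleton.mpr h)))
        exact Subsingleton.elim _ _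
      · rw [dif_neg hj]
    · intro c
      have e1 : glue {i} (fun j => u ⟨j.1, hmem j⟩) (fun j => glue I u c j.1) = glue I u c := by
        funext j
        by_cases hj : j ∈ ({i} : Finset (Fin n))
        · have hjI : j ∈ I := hmem ⟨j, hj⟩
          simp only [glue]
          rw [dif_pos hj, dif_pos hjI]
        · conv_lhs => rw [glue]
          rw [dif_neg hj]
      have e2 : glue {i} (fun j => v ⟨j.1, hmem j⟩) (fun j => glue I u c j.1) = glue I v c := by
        funext j
        by_cases hj : j ∈ ({i} : Finset (Fin n))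
        · have hjI : j ∈ I := hmem ⟨j, hj⟩
          simp only [glue]
          rw [dif_pos hj, dif_pos hjI]
        · conv_lhs => rw [glue]
          rw [dif_neg hj]
          simp only [glue]
          by_cases hjI : j ∈ I
          · rw [dif_pos hjI, dif_pos hjI]
            have := hsub j (hoth j hjI (fun h => hj (Finset.mem_singleton.mpr h)))
            exact Subsingleton.elim _ _
          · rw [dif_neg hjI, dif_neg hjI]
      rw [e1, e2]
  rw [key]
  refine hdiag i _ _ fun h => hne ?_
  exact congrFun h ⟨i, Finset.mem_singleton_self i⟩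

/-- If all factors outside `I` are trivial, the reduction is a reindexing. -/
lemma reduced_full {I : Finset (Fin n)} (hI : ∀ i, i ∉ I → d i = 1) :
    ∃ e : Idx d I ≃ Full d, ∀ τ : Matrix (Full d) (Full d) ℂ, reduced I τ = τ.submatrix e e := by
  have hsub : ∀ j : {j // j ∉ I}, Subsingleton (Fin (d j.1)) := fun j => by
    rw [hI j.1 j.2]; infer_instance
  have hne : Nonempty ((i : {i // i ∉ I}) → Fin (d i.1)) :=
    ⟨fun j => ⟨0, by rw [hI j.1 j.2]; exact Nat.one_pos⟩⟩
  obtain ⟨c0⟩ := hne
  have huniq : ∀ c : ((i : {i // i ∉ I}) → Fin (d i.1)), c = c0 := fun c => by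
    funext j
    have := hsub j
    exact Subsingleton.elim _ _
  refine ⟨Equiv.ofBijective (fun u => glue I u c0) ⟨?_, ?_⟩, ?_⟩
  · intro u v h
    have h' : glue I u c0 = glue I v c0 := h
    rw [← rx_glue I u c0, h', rx_glue]
  · intro x
    refine ⟨rx I x, ?_⟩
    have h := (glue_eq_iff I (rx I x) (fun i => x i.1) x).mpr ⟨rfl, rfl⟩
    rw [huniq (fun i => x i.1)] at h
    exact h.symm
  · intro τ
    ext u v
    simp only [reduced, Matrix.of_apply, Matrix.submatrix_apply]
    rw [Finset.sum_eq_single c0]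
    · rfl
    · intro c _ hc
      exact absurd (huniq c) hc
    · intro h
      exact absurd (Finset.mem_univ _) h

lemma perm_conj {κ : Type*} [Fintype κ] [DecidableEq κ] (ρ : Equiv.Perm κ) :
    ∃ P ∈ Matrix.unitaryGroup κ ℂ, ∀ r : κ → ℂ,
      P * Matrix.diagonal r * star P = Matrix.diagonal (fun x => r (ρ x)) := by
  have h : ∀ r : κ → ℂ, (Matrix.of fun x z => if ρ x = z then (1 : ℂ) else 0) *
      Matrix.diagonal r * star (Matrix.of fun x z => if ρ x = z then (1 : ℂ) else 0) =
      Matrix.diagonal (fun x => r (ρ x)) := by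
    intro r
    ext x y
    rw [conj_diag_apply]
    simp only [Matrix.of_apply]
    rw [Finset.sum_eq_single (ρ x)]
    · rw [Matrix.diagonal_apply]
      by_cases h : x = y
      · subst h; simp
      · have : ¬ ρ y = ρ x := fun h' => h (ρ.injective h').symm
        simp [h, this]
    · intro z _ hz
      have : ¬ ρ x = z := fun h => hz h.symm
      simp [this]
    · intro h
      exact absurd (Finset.mem_univ _) h
  refine ⟨_, ?_, h⟩
  rw [Matrix.mem_unitaryGroup_iff]
  have h1 := h (fun _ => 1)
  rw [Matrix.diagonal_one, Matrix.mul_one] at h1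
  exact h1

lemma WI_single (W : (i : Fin n) → Matrix (Fin (d i)) (Fin (d i)) ℂ) (i : Fin n)
    (a b : Idx d {i}) : WI W {i} a b =
      W i (a ⟨i, Finset.mem_singleton_self i⟩) (b ⟨i, Finset.mem_singleton_self i⟩) := by
  simp only [WI, Matrix.of_apply]
  rw [Finset.prod_eq_single (⟨i, Finset.mem_singleton_self i⟩ : {j // j ∈ ({i} : Finset (Fin n))})]
  · intro j _ hj
    exact absurd (Subtype.ext (Finset.mem_singleton.mp j.2)) hj
  · intro h
    exact absurd (Finset.mem_univ _) h

/-- A local unitary diagonalizing a one-site matrix. -/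
lemma exists_local (i : Fin n) {ρ : Matrix (Idx d {i}) (Idx d {i}) ℂ} (hρ : ρ.IsHermitian) :
    ∃ Wi ∈ Matrix.unitaryGroup (Fin (d i)) ℂ, ∀ M : Matrix (Idx d {i}) (Idx d {i}) ℂ,
      (∀ a b, M a b =
        Wi (a ⟨i, Finset.mem_singleton_self i⟩) (b ⟨i, Finset.mem_singleton_self i⟩)) →
      ∀ u v, u ≠ v → (M * ρ * star M) u v = 0 := by
  obtain ⟨U, hU, hρU⟩ := spectral_form hρ
  have hbij : Function.Bijective
      (fun a : Idx d {i} => a ⟨i, Finset.mem_singleton_self i⟩) := by
    constructor
    · intro a b h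
      funext ⟨j, hj⟩
      obtain rfl := Finset.mem_singleton.mp hj
      exact h
    · intro u
      refine ⟨fun j => cast (by rw [Finset.mem_singleton.mp j.2]) u, ?_⟩
      simp
  set e := Equiv.ofBijective _ hbij with he
  have hUs : star U * U = 1 := Matrix.mem_unitaryGroup_iff'.mp hU
  refine ⟨(star U).submatrix e.symm e.symm, ?_, ?_⟩
  · have hs : star ((star U).submatrix e.symm e.symm) = U.submatrix e.symm e.symm := by
      ext a b
      simp [Matrix.star_apply]
    rw [Matrix.mem_unitaryGroup_iff, hs, Matrix.submatrix_mul_equiv, hUs,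
      Matrix.submatrix_one_equiv]
  · intro M hM u v huv
    have hMU : M = star U := by
      ext a b
      rw [hM a b, Matrix.submatrix_apply]
      have h1 : ∀ a, e.symm (a ⟨i, Finset.mem_singleton_self i⟩) = a := fun a => by
        rw [Equiv.symm_apply_eq]
        rfl
      rw [h1, h1]
    rw [hMU, star_star]
    have h2 : star U * ρ * U = Matrix.diagonal (fun x => ((hρ.eigenvalues x : ℝ) : ℂ)) := by
      calc star U * ρ * U = star U * (U * Matrix.diagonal
            (fun x => ((hρ.eigenvalues x : ℝ) : ℂ)) * star U) * U := by rw [← hρU]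
        _ = (star U * U) * Matrix.diagonal (fun x => ((hρ.eigenvalues x : ℝ) : ℂ)) *
            (star U * U) := by simp only [Matrix.mul_assoc]
        _ = _ := by rw [hUs, Matrix.one_mul, Matrix.mul_one]
    rw [h2, Matrix.diagonal_apply_ne _ huv]

end Pool.Agent.MP2725c9
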