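import Mathlib
import Pool.Agent.Lib.MP_2725c9_mp.H22.Pos

set_option autoImplicit false
open Matrix
open scoped ComplexOrder

namespace Pool.Agent.MP2725c9

variable {n : ℕ} {d : Fin n → ℕ}

/-- Diagonal matrices. -/
noncomputable def dg {κ : Type*} [DecidableEq κ] (x : κ → ℝ) : Matrix κ κ ℂ :=
  Matrix.diagonal (fun i => ((x i : ℝ) : ℂ))

lemma dg_state {κ : Type*} [Fintype κ] [DecidableEq κ] {x : κ → ℝ} (h0 : ∀ i, 0 ≤ x i)
    (h1 : ∑ i, x i = 1) : dg x ∈ states κ := by
  refine ⟨Matrix.PosSemidef.diagonal ?_, ?_⟩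
  · intro i
    show (0 : ℂ) ≤ ((x i : ℝ) : ℂ)
    exact_mod_cast h0 i
  · rw [dg, Matrix.trace_diagonal]
    exact_mod_cast h1

lemma conj_state {κ : Type*} [Fintype κ] [DecidableEq κ] {ρ : Matrix κ κ ℂ} (h : ρ ∈ states κ)
    {V : Matrix κ κ ℂ} (hV : V ∈ Matrix.unitaryGroup κ ℂ) : V * ρ * star V ∈ states κ := by
  refine ⟨?_, ?_⟩
  · rw [Matrix.star_eq_conjTranspose]
    exact h.1.mul_mul_conjTranspose_same V
  · rw [Matrix.trace_mul_comm, ← Matrix.mul_assoc, Matrix.mem_unitaryGroup_iff'.mp hV,
      Matrix.one_mul, h.2]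

lemma dg_convex (I : Finset (Fin n)) (a b : ℝ) (x y : Full d → ℝ) :
    reduced I (dg (a • x + b • y)) = a • reduced I (dg x) + b • reduced I (dg y) := by
  simp only [dg, reduced_diagonal]
  ext u v
  rw [Matrix.add_apply, Matrix.smul_apply, Matrix.smul_apply, Matrix.diagonal_apply,
    Matrix.diagonal_apply, Matrix.diagonal_apply]
  by_cases h : u = v
  · simp only [h, if_true, Pi.add_apply, Pi.smul_apply, smul_eq_mul]
    push_cast
    rw [Finset.sum_add_distrib, ← Finset.mul_sum, ← Finset.mul_sum, Complex.real_smul,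
      Complex.real_smul]
  · simp [h]

lemma comp_convex {I : Finset (Fin n)} {f : Matrix (Idx d I) (Idx d I) ℂ → ℝ}
    (hf : ConvexOn ℝ (states (Idx d I)) f) :
    ConvexOn ℝ (stdSimplex ℝ (Full d)) (fun x => f (reduced I (dg x))) := by
  refine ⟨convex_stdSimplex ℝ _, fun x hx y hy a b ha hb hab => ?_⟩
  have h1 := hf.2 (reduced_state I (dg_state hx.1 hx.2)) (reduced_state I (dg_state hy.1 hy.2))
    ha hb hab
  rw [← dg_convex] at h1
  exact h1

lemma rearr_simplex {κ : Type*} [Fintype κ] {p : κ → ℝ} (h0 : ∀ i, 0 ≤ p i)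
    (h1 : ∑ i, p i = 1) (σ : Equiv.Perm κ) : (fun i => p (σ i)) ∈ stdSimplex ℝ κ :=
  ⟨fun i => h0 _, by rw [Equiv.sum_comp σ p, h1]⟩

/-- The value of a function of a reduction to a set containing all nontrivial factors. -/
lemma full_le {p : Full d → ℝ} (hp0 : ∀ x, 0 ≤ p x) (hp1 : ∑ x, p x = 1)
    {I : Finset (Fin n)} (hI : ∀ i, i ∉ I → d i = 1)
    {f : Matrix (Idx d I) (Idx d I) ℂ → ℝ} (hconv : ConvexOn ℝ (states (Idx d I)) f)
    (hinv : ∀ U ∈ Matrix.unitaryGroup (Idx d I) ℂ, ∀ ρ ∈ states (Idx d I),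
      f (U * ρ * star U) = f ρ)
    {r : Full d → ℝ} (hr0 : ∀ x, 0 ≤ r x) (hr1 : ∑ x, r x = 1) (hrp : Majorized r p)
    {V : Matrix (Full d) (Full d) ℂ} (hV : V ∈ Matrix.unitaryGroup (Full d) ℂ)
    (π : Equiv.Perm (Full d)) :
    f (reduced I (V * dg r * star V)) ≤ f (reduced I (dg fun x => p (π x))) := by
  obtain ⟨e, he⟩ := reduced_full hI
  have hG : ∀ V ∈ Matrix.unitaryGroup (Full d) ℂ, ∀ τ ∈ states (Full d),
      f (reduced I (V * τ * star V)) = f (reduced I τ) := by
    intro V hV τ hτ
    have h1 : reduced I (V * τ * star V) =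
        (V.submatrix e e) * reduced I τ * star (V.submatrix e e) := by
      have hs : star (V.submatrix e e) = (star V).submatrix e e := by
        ext a b
        simp [Matrix.star_apply]
      rw [hs, he, he, Matrix.submatrix_mul_equiv, Matrix.submatrix_mul_equiv]
    have h2 : V.submatrix e e ∈ Matrix.unitaryGroup (Idx d I) ℂ := by
      have hs : star (V.submatrix e e) = (star V).submatrix e e := by
        ext a b
        simp [Matrix.star_apply]
      rw [Matrix.mem_unitaryGroup_iff, hs, Matrix.submatrix_mul_equiv,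
        Matrix.mem_unitaryGroup_iff.mp hV, Matrix.submatrix_one_equiv]
    rw [h1, hinv _ h2 _ (reduced_state I hτ)]
  rw [hG V hV _ (dg_state hr0 hr1)]
  have hc := comp_convex hconv
  have hsub : rearr p ⊆ stdSimplex ℝ (Full d) := by
    rintro _ ⟨σ, rfl⟩
    exact rearr_simplex hp0 hp1 σ
  obtain ⟨_, ⟨π', rfl⟩, h⟩ := hc.exists_ge_of_mem_convexHull hsub (mem_hull hrp)
  refine h.trans (le_of_eq ?_)
  obtain ⟨P, hP, hPc⟩ := perm_conj (π'.trans π.symm)
  have h3 : dg (fun x => p (π' x)) = P * dg (fun x => p (π x)) * star P := by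
    rw [dg, dg, hPc]
    simp
  have hst := rearr_simplex hp0 hp1 π
  show f (reduced I (dg fun x => p (π' x))) = _
  rw [h3, hG P hP _ (dg_state hst.1 hst.2)]

/-- At most two factors of dimension at least two: classical optimizers exist. -/
theorem pos_half (hd : ∀ i, 1 ≤ d i)
    (h2 : (Finset.univ.filter fun i => 2 ≤ d i).card ≤ 2) : ClassicalOptimizers d := by
  intro p hp0 hp1 f _ hconv hinv
  set T := Finset.univ.filter fun i => 2 ≤ d i with hTdef
  have hT : ∀ i, i ∉ T → d i = 1 := by
    intro i hi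
    rw [hTdef, Finset.mem_filter, not_and] at hi
    have := hi (Finset.mem_univ _)
    have := hd i
    omega
  -- the best rearrangement
  obtain ⟨π0, -, hπ0⟩ := Finset.exists_max_image (Finset.univ : Finset (Equiv.Perm (Full d)))
    (fun π => objective f (dg fun x => p (π x))) ⟨1, Finset.mem_univ _⟩
  have hone : tens (fun i : Fin n => (1 : Matrix (Fin (d i)) (Fin (d i)) ℂ)) =
      (1 : Matrix (Full d) (Full d) ℂ) := by
    ext x y
    simp only [tens, Matrix.of_apply]
    by_cases h : x = y
    · subst h; simp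
    · rw [Matrix.one_apply_ne h]
      obtain ⟨i, hi⟩ := Function.ne_iff.mp h
      exact Finset.prod_eq_zero (Finset.mem_univ i) (Matrix.one_apply_ne hi)
  have hst0 := rearr_simplex hp0 hp1 π0
  have hform : dg (fun x => p (π0 x)) = (1 : Matrix (Full d) (Full d) ℂ) *
      Matrix.diagonal (fun x => ((p (π0 x) : ℝ) : ℂ)) * star (1 : Matrix (Full d) (Full d) ℂ) := by
    rw [star_one, Matrix.one_mul, Matrix.mul_one]
    rfl
  refine ⟨dg (fun x => p (π0 x)), ?_, ?_, ?_⟩
  · rw [hform]
    exact feasible_conj hst0.1 hst0.2 (maj_of_hull (subset_convexHull ℝ _ ⟨π0, rfl⟩))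
      (Submonoid.one_mem _)
  · refine ⟨fun i => 1, fun i => Submonoid.one_mem _, fun x => p (π0 x), ?_⟩
    rw [hone]
    exact hform
  · intro σ hσ
    obtain ⟨hσst, hH, hmaj⟩ := hσ
    obtain ⟨U, hU, hUσ⟩ := spectral_form hH
    have hWex := fun i => exists_local i (reduced_state {i} hσst).1.isHermitian
    choose W hW hWd using hWex
    have htens : tens W ∈ Matrix.unitaryGroup (Full d) ℂ := prod_unitary W hW
    have hWI : ∀ I, WI W I ∈ Matrix.unitaryGroup (Idx d I) ℂ := fun I =>
      prod_unitary (fun i : {i // i ∈ I} => W i.1) (fun i => hW i.1)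
    set τ := tens W * σ * star (tens W) with hτ
    have hτst : τ ∈ states (Full d) := conj_state hσst htens
    have hobj : objective f σ = objective f τ := by
      unfold objective
      refine Finset.sum_congr rfl fun I _ => ?_
      rw [hτ, reduced_conj W hW, hinv I _ (hWI I) _ (reduced_state I hσst)]
    have hlam0 : ∀ x, 0 ≤ hH.eigenvalues x := fun x => hσst.1.eigenvalues_nonneg x
    have hlam1 : ∑ x, hH.eigenvalues x = 1 := by
      rw [hmaj.1, hp1]
    have hV : tens W * U ∈ Matrix.unitaryGroup (Full d) ℂ := Submonoid.mul_mem _ htens hU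
    have hτV : τ = (tens W * U) * dg hH.eigenvalues * star (tens W * U) := by
      rw [hτ]
      conv_lhs => rw [hUσ]
      rw [StarMul.star_mul, dg]
      simp only [Matrix.mul_assoc]
    -- the diagonal
    set q : Full d → ℝ := fun x => ∑ z, hH.eigenvalues z * ‖(tens W * U) x z‖ ^ 2 with hq
    have hqτ : ∀ x, τ x x = ((q x : ℝ) : ℂ) := by
      intro x
      rw [hτV, dg, conj_diag_apply, hq]
      push_cast
      refine Finset.sum_congr rfl fun z _ => ?_
      have := Complex.mul_conj ((tens W * U) x z)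
      rw [Complex.star_def, this, Complex.normSq_eq_norm_sq]
      push_cast
      rfl
    have hqmaj : Majorized q p := by
      refine (maj_of_unitary (V := 1) hV (Submonoid.one_mem _) (fun x => ?_)).trans hmaj
      rw [star_one, Matrix.one_mul]
    have hred : ∀ I : Finset (Fin n), (I ∩ T).card ≤ 1 → reduced I τ = reduced I (dg q) := by
      intro I hI
      have hdiag : ∀ i, ∀ u v : Idx d {i}, u ≠ v → reduced {i} τ u v = 0 := by
        intro i u v huv
        rw [hτ, reduced_conj W hW]
        exact hWd i _ (fun a b => WI_single W i a b) u v huv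
      rw [dg, reduced_diagonal]
      ext u v
      by_cases h : u = v
      · subst h
        rw [Matrix.diagonal_apply_eq]
        simp only [reduced, Matrix.of_apply, hqτ]
      · rw [Matrix.diagonal_apply_ne _ h]
        exact offdiag_zero hT hdiag I hI u v h
    -- the convex function of the diagonal
    have hPhi : ConvexOn ℝ (stdSimplex ℝ (Full d)) (fun x =>
        ∑ I ∈ Finset.univ.filter (fun I : Finset (Fin n) => (I ∩ T).card ≤ 1),
          f I (reduced I (dg x))) := by
      refine ⟨convex_stdSimplex ℝ _, fun x hx y hy a b ha hb hab => ?_⟩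
      simp only [smul_eq_mul, Finset.mul_sum]
      rw [← Finset.sum_add_distrib]
      refine Finset.sum_le_sum fun I _ => ?_
      have h := (comp_convex (hconv I)).2 hx hy ha hb hab
      simpa only [smul_eq_mul] using h
    have hsub : rearr p ⊆ stdSimplex ℝ (Full d) := by
      rintro _ ⟨σ, rfl⟩
      exact rearr_simplex hp0 hp1 σ
    obtain ⟨_, ⟨π, rfl⟩, hπ⟩ := hPhi.exists_ge_of_mem_convexHull hsub (mem_hull hqmaj)
    have hfin : objective f τ ≤ objective f (dg fun x => p (π x)) := by
      unfold objective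
      rw [← Finset.sum_filter_add_sum_filter_not Finset.univ
        (fun I : Finset (Fin n) => (I ∩ T).card ≤ 1) (fun I => f I (reduced I τ)),
        ← Finset.sum_filter_add_sum_filter_not Finset.univ
        (fun I : Finset (Fin n) => (I ∩ T).card ≤ 1)
        (fun I => f I (reduced I (dg fun x => p (π x))))]
      refine add_le_add ?_ ?_
      · rw [Finset.sum_congr rfl (fun I hI => by
          rw [hred I (Finset.mem_filter.mp hI).2])]
        exact hπ
      · refine Finset.sum_le_sum fun I hI => ?_
        have hI2 := (Finset.mem_filter.mp hI).2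
        have hTI : T ⊆ I := by
          have h3 : (I ∩ T).card = T.card := by
            have := Finset.card_le_card (Finset.inter_subset_right (s₁ := I) (s₂ := T))
            omega
          have h4 := Finset.eq_of_subset_of_card_le (Finset.inter_subset_right (s₁ := I) (s₂ := T))
            h3.ge
          rw [← h4]
          exact Finset.inter_subset_left
        rw [hτV]
        exact full_le hp0 hp1 (fun i hi => hT i (fun h => hi (hTI h))) (hconv I) (hinv I)
          hlam0 hlam1 hmaj hV π
    rw [hobj]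
    exact hfin.trans (hπ0 π (Finset.mem_univ _))

end Pool.Agent.MP2725c9
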